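import Mathlib
import Pool.Agent.H713R2.Ext3
import Pool.Agent.H713R2.AR.GF

/-!
# Project LC: local connectivity of the Multibrot sets at almost every angle, statements

`fc d c z = z ^ d + c`, `P d n c` is the `n`-th iterate of `0`, `green d c` is the Green function of
`fc d c` with pole at infinity, `IsExteriorMap (multibrotSet d) ψ`: `ψ` is the exterior map.
-/

set_option autoImplicit false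

open Set Filter Metric MeasureTheory Topology Complex Bornology

namespace Pool.Agent.Y298.LC

open Pool.Agent.H712R2 (P fc)
open Pool.Agent.H713R2 (IsExteriorMap)
open Pool.Agent.H713R2.AR (green)
open N62a1eb23 (multibrotSet)

/-- the point with potential `σ` and angle `t` (in turns) -/
noncomputable def ex (σ t : ℝ) : ℂ := Complex.exp ((σ : ℂ) + 2 * Real.pi * t * I)

/-- the domain of the inverse Böttcher map -/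
def Dom (g : ℝ) : Set ℂ := {w | g < Real.log ‖w‖}

/-- `Ψ c` is the inverse Böttcher map of `fc d c`, defined for the potentials larger than the
potential `green d c 0` of the critical point. -/
structure Bott (d : ℕ) (Ψ : ℂ → ℂ → ℂ) : Prop where
  diffw : ∀ c, DifferentiableOn ℂ (Ψ c) (Dom (green d c 0))
  diffc : ∀ w, DifferentiableOn ℂ (fun c => Ψ c w) {c | green d c 0 < Real.log ‖w‖}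
  cont : ContinuousOn (fun p : ℂ × ℂ => Ψ p.1 p.2) {p | green d p.1 0 < Real.log ‖p.2‖}
  conj : ∀ c, ∀ w ∈ Dom (green d c 0), Ψ c (w ^ d) = fc d c (Ψ c w)
  pot : ∀ c, ∀ w ∈ Dom (green d c 0), green d c (Ψ c w) = Real.log ‖w‖
  inj : ∀ c, InjOn (Ψ c) (Dom (green d c 0))
  surj : ∀ c z, green d c 0 < green d c z → ∃ w ∈ Dom (green d c 0), Ψ c w = z
  infty : ∀ c, Tendsto (fun w => Ψ c w / w) (cobounded ℂ) (𝓝 1)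
  rot : ∀ c (ω : ℂ), ω ^ d = 1 → ∀ w ∈ Dom (green d c 0), Ψ c (ω * w) = ω * Ψ c w
  unif : ∀ ε : ℝ, 0 < ε → ∃ R : ℝ, ∀ c w : ℂ, R ≤ ‖w‖ → ‖c‖ ≤ 2 * ‖w‖ →
    w ∈ Dom (green d c 0) ∧ ‖Ψ c w - w‖ ≤ ε * ‖w‖

/-- BOT1 -/
def S_BOT1 : Prop := ∀ d : ℕ, 2 ≤ d → ∃ Ψ, Bott d Ψ

/-- BOT2: the exterior map of the Multibrot set and the inverse Böttcher maps -/
def S_BOT2 : Prop := ∀ (d : ℕ) (Ψ : ℂ → ℂ → ℂ) (ψ : ℂ → ℂ), 2 ≤ d → Bott d Ψ →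
  IsExteriorMap (multibrotSet d) ψ → ∀ w : ℂ, 1 < ‖w‖ →
    green d (ψ w) 0 = Real.log ‖w‖ / d ∧ Ψ (ψ w) w = ψ w

/-- CG: joint continuity of the Green function and its relation with the Multibrot set -/
def S_CG : Prop := ∀ d : ℕ, 2 ≤ d → Continuous (fun p : ℂ × ℂ => green d p.1 p.2) ∧
  (∀ c z, green d c (fc d c z) = d * green d c z) ∧
  (∀ c, c ∈ multibrotSet d ↔ green d c 0 = 0) ∧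
  (∀ c z, green d c z = 0 → ∀ A : ℝ, 2 ≤ A → ‖c‖ ≤ A → ∀ n, ‖(fc d c)^[n] z‖ ≤ 2 * A)

/-- A system of rays with angles in `A`, for all parameters in a disc. -/
structure RaySys (d : ℕ) (Ψ : ℂ → ℂ → ℂ) (c₀ : ℂ) (r : ℝ) (A : Set ℝ) (z : ℝ → ℝ → ℂ → ℂ) :
    Prop where
  diff : ∀ t ∈ A, ∀ σ, 0 < σ → DifferentiableOn ℂ (z t σ) (ball c₀ r)
  cont : ∀ t ∈ A, ContinuousOn (fun p : ℝ × ℂ => z t p.1 p.2) (Ioi 0 ×ˢ ball c₀ r)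
  conj : ∀ t ∈ A, ∀ σ, 0 < σ → ∀ c ∈ ball c₀ r, fc d c (z t σ c) = z (d * t) (d * σ) c
  pot : ∀ t ∈ A, ∀ σ, 0 < σ → ∀ c ∈ ball c₀ r, green d c (z t σ c) = σ
  high : ∀ t ∈ A, ∀ σ, 0 < σ → ∀ c ∈ ball c₀ r, green d c 0 < σ → z t σ c = Ψ c (ex σ t)
  rot : ∀ t ∈ A, ∀ j : ℤ, t + j / d ∈ A → ∀ σ, 0 < σ → ∀ c ∈ ball c₀ r,
    z (t + j / d) σ c = ex 0 (j / d) * z t σ c

/-- RAY -/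
def S_RAY : Prop := ∀ (d : ℕ) (Ψ : ℂ → ℂ → ℂ) (ψ : ℂ → ℂ) (c₀ : ℂ) (r : ℝ) (A : Set ℝ), 2 ≤ d →
  Bott d Ψ → IsExteriorMap (multibrotSet d) ψ → 0 < r → (∀ t ∈ A, (d : ℝ) * t ∈ A) →
  (∀ t ∈ A, ∀ σ, 0 < σ → ψ (ex σ t) ∉ ball c₀ r) → ∃ z, RaySys d Ψ c₀ r A z

/-- ACC: a rational parameter ray does not accumulate at `c₀` -/
def S_ACC : Prop := ∀ (d : ℕ) (Ψ : ℂ → ℂ → ℂ) (ψ : ℂ → ℂ) (c₀ : ℂ) (t : ℝ) (k q : ℕ), 2 ≤ d →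
  Bott d Ψ → IsExteriorMap (multibrotSet d) ψ → c₀ ∈ multibrotSet d → 1 ≤ q →
  (∃ n : ℤ, (d : ℝ) ^ (k + q) * t = (d : ℝ) ^ k * t + n) →
  P d (k + 1) c₀ ∉ interior {z | green d c₀ z = 0} → P d (k + q + 1) c₀ ≠ P d (k + 1) c₀ →
  ∃ r, 0 < r ∧ ∀ σ, 0 < σ → ψ (ex σ t) ∉ ball c₀ r

/-- NUL: almost no parameter ray lands at a given point -/
def S_NUL : Prop := ∀ (d : ℕ) (ψ : ℂ → ℂ) (c : ℂ), 2 ≤ d → IsExteriorMap (multibrotSet d) ψ →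
  ∀ᵐ t : ℝ, ¬ Tendsto (fun σ : ℝ => ψ (ex σ t)) (𝓝[>] 0) (𝓝 c)

/-- the complement of the ray from the critical value `c = ψ (ex s θ)` to infinity -/
def Slit (Ψ : ℂ → ℂ → ℂ) (c : ℂ) (s θ : ℝ) : Set ℂ := {z | ∀ σ, s ≤ σ → z ≠ Ψ c (ex σ θ)}

/-- SLIT: branches of the inverse of `fc d c` on the slit plane -/
def S_SLIT : Prop := ∀ (d : ℕ) (Ψ : ℂ → ℂ → ℂ) (ψ : ℂ → ℂ) (s θ x : ℝ), 2 ≤ d →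
  Bott d Ψ → IsExteriorMap (multibrotSet d) ψ → 0 < s → (∃ n : ℤ, (d : ℝ) * x = θ + n) →
  IsOpen (Slit Ψ (ψ (ex s θ)) s θ) ∧
  ∃ g : ℂ → ℂ, DifferentiableOn ℂ g (Slit Ψ (ψ (ex s θ)) s θ) ∧
    (∀ z ∈ Slit Ψ (ψ (ex s θ)) s θ, fc d (ψ (ex s θ)) (g z) = z) ∧
    ∀ σ t, s / d < σ → t ∈ Ioo x (x + 1 / d) →
      Ψ (ψ (ex s θ)) (ex (d * σ) (d * t)) ∈ Slit Ψ (ψ (ex s θ)) s θ ∧
      g (Ψ (ψ (ex s θ)) (ex (d * σ) (d * t))) = Ψ (ψ (ex s θ)) (ex σ t)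

/-- ALA: the rays whose angles stay in one arc land at one fixed point (parameters outside) -/
def S_ALA : Prop := ∀ (d : ℕ) (Ψ : ℂ → ℂ → ℂ) (ψ : ℂ → ℂ) (s θ x : ℝ) (c₀ : ℂ) (r : ℝ)
  (A A₀ : Set ℝ) (z : ℝ → ℝ → ℂ → ℂ), 2 ≤ d → Bott d Ψ → IsExteriorMap (multibrotSet d) ψ →
  0 < s → (∃ n : ℤ, (d : ℝ) * x = θ + n) → RaySys d Ψ c₀ r A z → ψ (ex s θ) ∈ ball c₀ r →
  A₀ ⊆ A → (∀ t ∈ A₀, (d : ℝ) * t ∈ A₀) → (∀ t ∈ A₀, ∃ n : ℤ, t + n ∈ Ioo x (x + 1 / d)) →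
  (∃ F : Finset ℝ, (F : Set ℝ) ⊆ A₀ ∧ ∀ t ∈ A₀, ∃ t' ∈ F, ∃ n : ℤ, t = t' + n) →
  ∃ p : ℂ, fc d (ψ (ex s θ)) p = p ∧
    ∀ t ∈ A₀, Tendsto (fun σ => z t σ (ψ (ex s θ))) (𝓝[>] 0) (𝓝 p)

/-- ALB: two rays in one arc whose images land together land together (parameters outside) -/
def S_ALB : Prop := ∀ (d : ℕ) (Ψ : ℂ → ℂ → ℂ) (ψ : ℂ → ℂ) (s θ x : ℝ) (c₀ : ℂ) (r : ℝ)
  (A : Set ℝ) (z : ℝ → ℝ → ℂ → ℂ) (t t' : ℝ) (p : ℂ), 2 ≤ d → Bott d Ψ →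
  IsExteriorMap (multibrotSet d) ψ →
  0 < s → (∃ n : ℤ, (d : ℝ) * x = θ + n) → RaySys d Ψ c₀ r A z → ψ (ex s θ) ∈ ball c₀ r →
  t ∈ A → t' ∈ A → (d : ℝ) * t ∈ A → (d : ℝ) * t' ∈ A →
  (∃ n : ℤ, t + n ∈ Ioo x (x + 1 / d)) → (∃ n : ℤ, t' + n ∈ Ioo x (x + 1 / d)) →
  Tendsto (fun σ => z (d * t) σ (ψ (ex s θ))) (𝓝[>] 0) (𝓝 p) →
  Tendsto (fun σ => z (d * t') σ (ψ (ex s θ))) (𝓝[>] 0) (𝓝 p) →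
  ∃ p' : ℂ, Tendsto (fun σ => z t σ (ψ (ex s θ))) (𝓝[>] 0) (𝓝 p') ∧
    Tendsto (fun σ => z t' σ (ψ (ex s θ))) (𝓝[>] 0) (𝓝 p')

/-- VIT: Vitali's theorem for a family indexed by `σ → 0` -/
def S_VIT : Prop := ∀ (c₀ : ℂ) (r M : ℝ) (F : ℝ → ℂ → ℂ) (T : Set ℂ), 0 < r →
  (∀ σ ∈ Ioc (0 : ℝ) 1, DifferentiableOn ℂ (F σ) (ball c₀ r)) →
  (∀ σ ∈ Ioc (0 : ℝ) 1, ∀ c ∈ ball c₀ r, ‖F σ c‖ ≤ M) → T ⊆ ball c₀ r → AccPt c₀ (𝓟 T) →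
  (∀ c ∈ T, ∃ p, Tendsto (fun σ => F σ c) (𝓝[>] 0) (𝓝 p)) →
  ∃ y : ℂ → ℂ, DifferentiableOn ℂ y (ball c₀ r) ∧
    ∀ ρ, ρ < r → TendstoUniformlyOn F y (𝓝[>] 0) (closedBall c₀ ρ)

/-- PER: a cycle of angles in one arc -/
def S_PER : Prop := ∀ (d : ℕ) (θ : ℝ), 2 ≤ d → 0 < θ → θ < 1 →
  (∀ i j : ℕ, i < j → ∀ n : ℤ, (d : ℝ) ^ j * θ ≠ (d : ℝ) ^ i * θ + n) →
  (∀ κ : ℝ, 0 < κ → ∃ (m : ℕ) (n : ℤ), |(d : ℝ) ^ m * θ - n| < κ) →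
  ∃ (x a : ℝ) (q : ℕ), (∃ n : ℤ, (d : ℝ) * x = θ + n) ∧ 1 ≤ q ∧
    (∃ n : ℤ, (d : ℝ) ^ q * a = a + n) ∧
    (∀ j : ℕ, ∃ n : ℤ, (d : ℝ) ^ j * a + n ∈ Ioo x (x + 1 / d)) ∧
    (∃ (j : ℕ) (n : ℤ), (d : ℝ) ^ j * a + n ∈ Ioo 0 θ) ∧
    (∃ (j : ℕ) (n : ℤ), (d : ℝ) ^ j * a + n ∈ Ioo (θ - 1) 0) ∧
    ∀ (j : ℕ) (n : ℤ), (d : ℝ) ^ j * a + n ∉ Ioo ((θ - 1) / d) (θ / d)

/-- ANG1: few close returns -/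
def S_ANG1 : Prop := ∀ d : ℕ, 2 ≤ d → ∀ᵐ θ : ℝ, ∀ a : ℝ, 0 < a → a ≤ 1 / 4 → ∀ J : ℕ,
  ∀ᶠ M : ℕ in atTop, {p : ℕ × ℕ | 1 ≤ p.1 ∧ p.1 ≤ M ∧ J ≤ p.2 ∧
      ∃ j : ℤ, |(d : ℝ) ^ p.1 * θ - θ - j| < a / (d : ℝ) ^ p.2}.Finite ∧
    ({p : ℕ × ℕ | 1 ≤ p.1 ∧ p.1 ≤ M ∧ J ≤ p.2 ∧
      ∃ j : ℤ, |(d : ℝ) ^ p.1 * θ - θ - j| < a / (d : ℝ) ^ p.2}.ncard : ℝ) ≤
      16 * a * M / (d : ℝ) ^ J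

/-- ANG2: many visits near `0` in all windows -/
def S_ANG2 : Prop := ∀ d : ℕ, 2 ≤ d → ∀ᵐ θ : ℝ, ∀ κ ε : ℝ, 0 < κ → κ ≤ 1 / 4 → 0 < ε → ε ≤ 1 →
  ∀ᶠ n : ℕ in atTop, κ * ε * n / 4 ≤ ({m : ℕ | (1 + ε / 2) * n ≤ m ∧ (m : ℝ) ≤ (1 + ε) * n ∧
    ∃ j : ℤ, |(d : ℝ) ^ m * θ - j| < κ}.ncard : ℝ)

/-- ANG: almost every angle has good times in all windows -/
def S_ANG : Prop := ∀ d : ℕ, 2 ≤ d → ∀ᵐ θ : ℝ,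
  (∀ i j : ℕ, i < j → ∀ n : ℤ, (d : ℝ) ^ j * θ ≠ (d : ℝ) ^ i * θ + n) ∧
  ∀ κ ε : ℝ, 0 < κ → 0 < ε → ε ≤ 1 → ∃ a₀ : ℝ, 0 < a₀ ∧ ∀ a : ℝ, 0 < a → a ≤ a₀ →
    ∀ᶠ n : ℕ in atTop, ∃ m : ℕ, (1 + ε / 2) * n ≤ m ∧ (m : ℝ) ≤ (1 + ε) * n ∧
      (∃ j : ℤ, |(d : ℝ) ^ m * θ - j| < κ * a) ∧
      ∀ i : ℕ, n < i → i ≤ m → ∀ j : ℤ, a / (d : ℝ) ^ (m - i) ≤ |(d : ℝ) ^ i * θ - θ - j|

/-- the image of a loop -/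
def im (γ : ℝ → ℂ) : Set ℂ := γ '' Icc 0 1

/-- the loop `γ` (parametrised by `[0,1]`) winds around `z` -/
def Enc (γ : ℝ → ℂ) (z : ℂ) : Prop := ¬ ∃ L : ℝ → ℂ, ContinuousOn L (Icc 0 1) ∧
  (∀ τ ∈ Icc (0 : ℝ) 1, Complex.exp (L τ) = γ τ - z) ∧ L 0 = L 1

/-- TOP -/
def S_TOP : Prop :=
  (∀ (γ : ℝ → ℂ) (S : Set ℂ), ContinuousOn γ (Icc 0 1) → γ 0 = γ 1 → IsPreconnected S →
    Disjoint S (im γ) → ∀ z ∈ S, ∀ z' ∈ S, Enc γ z → Enc γ z') ∧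
  (∀ (γ : ℝ → ℂ) (p z : ℂ) (r : ℝ), ContinuousOn γ (Icc 0 1) → γ 0 = γ 1 →
    im γ ⊆ ball p r → z ∉ ball p r → ¬ Enc γ z) ∧
  (∀ (γ γ' : ℝ → ℂ) (z : ℂ), ContinuousOn γ (Icc 0 1) → ContinuousOn γ' (Icc 0 1) → γ 0 = γ 1 →
    γ' 0 = γ' 1 → (∀ τ ∈ Icc (0 : ℝ) 1, ‖γ τ - γ' τ‖ < ‖γ τ - z‖) → (Enc γ z ↔ Enc γ' z))

/-- A loop made of two rays and an arc of equipotential, in terms of a parametrisation `F` of the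
exterior by `Dom g`: nothing is required below the potential `g` except that the points are not in
the image of `F`. -/
structure SectLoop (F : ℂ → ℂ) (g bm bp s : ℝ) (γ : ℝ → ℂ) : Prop where
  cont : ContinuousOn γ (Icc 0 1)
  closed : γ 0 = γ 1
  hg : 0 ≤ g
  hgs : g < s
  hb : bm < bp
  hb1 : bp < bm + 1
  left : ∀ τ ∈ Icc (0 : ℝ) (1 / 3), g < 3 * τ * s → γ τ = F (ex (3 * τ * s) bm)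
  mid : ∀ τ ∈ Icc (1 / 3 : ℝ) (2 / 3), γ τ = F (ex s (bm + (3 * τ - 1) * (bp - bm)))
  right : ∀ τ ∈ Icc (2 / 3 : ℝ) 1, g < 3 * (1 - τ) * s → γ τ = F (ex (3 * (1 - τ) * s) bp)
  leftlow : ∀ τ ∈ Icc (0 : ℝ) (1 / 3), 3 * τ * s ≤ g → γ τ ∉ F '' Dom g
  rightlow : ∀ τ ∈ Icc (2 / 3 : ℝ) 1, 3 * (1 - τ) * s ≤ g → γ τ ∉ F '' Dom g

/-- SECT -/
def S_SECT : Prop := ∀ (F : ℂ → ℂ) (g bm bp s : ℝ) (γ : ℝ → ℂ), DifferentiableOn ℂ F (Dom g) →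
  InjOn F (Dom g) → Tendsto (fun w => F w / w) (cobounded ℂ) (𝓝 1) → SectLoop F g bm bp s γ →
  (∀ σ t : ℝ, g < σ → σ < s → t ∈ Ioo bm bp → F (ex σ t) ∉ im γ ∧ Enc γ (F (ex σ t))) ∧
  (∀ σ t : ℝ, g < σ → (s < σ ∨ ∀ n : ℤ, t + n ∉ Icc bm bp) →
    F (ex σ t) ∉ im γ ∧ ¬ Enc γ (F (ex σ t)))

/-- NEST -/
def S_NEST : Prop := ∀ (F : ℂ → ℂ) (bm bp s bm' bp' s' : ℝ) (γ γ' : ℝ → ℂ),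
  DifferentiableOn ℂ F (Dom 0) → InjOn F (Dom 0) → Tendsto (fun w => F w / w) (cobounded ℂ) (𝓝 1) →
  SectLoop F 0 bm bp s γ → SectLoop F 0 bm' bp' s' γ' → bm' < bm → bp < bp' → s < s' →
  γ 0 ≠ γ' 0 → IsCompact {z | z ∈ im γ ∨ Enc γ z} ∧ IsPreconnected {z | z ∈ im γ ∨ Enc γ z} ∧
    ∀ z, (z ∈ im γ ∨ Enc γ z) → z ∉ im γ' ∧ Enc γ' z

/-- BRANCH: pulling back an open set along the critical orbit, for a parameter outside -/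
def S_BRANCH : Prop := ∀ (d : ℕ) (Ψ : ℂ → ℂ → ℂ) (ψ : ℂ → ℂ) (s θ bm bp a s₀ tm : ℝ) (n m : ℕ)
  (W : Set ℂ), 2 ≤ d → Bott d Ψ → IsExteriorMap (multibrotSet d) ψ → 0 < s → IsOpen W →
  (∀ z ∈ W, green d (ψ (ex s θ)) z < s₀) →
  (∀ σ t, s / d < σ → Ψ (ψ (ex s θ)) (ex σ t) ∈ W → ∃ j : ℤ, t + j ∈ Ioo bm bp) →
  (∀ σ t, s / d < σ → σ < s₀ → t ∈ Ioo bm bp → Ψ (ψ (ex s θ)) (ex σ t) ∈ W) →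
  n ≤ m → (d : ℝ) ^ m * s < s₀ → tm ∈ Ioo bm bp → (∃ j : ℤ, (d : ℝ) ^ m * θ = tm + j) →
  bp - bm ≤ a →
  (∀ i : ℕ, n < i → i ≤ m → ∀ j : ℤ, a / (d : ℝ) ^ (m - i) ≤ |(d : ℝ) ^ i * θ - θ - j|) →
  ∃ G : ℂ → ℂ, DifferentiableOn ℂ G W ∧ (∀ z ∈ W, (fc d (ψ (ex s θ)))^[m - n] (G z) = z) ∧
    G (P d (m + 1) (ψ (ex s θ))) = P d (n + 1) (ψ (ex s θ))

/-- KOE: distortion on a compact connected set -/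
def S_KOE : Prop := ∀ (K : Set ℂ) (δ : ℝ), IsCompact K → IsPreconnected K → 0 < δ →
  ∃ C : ℝ, 0 < C ∧ ∀ G : ℂ → ℂ, DifferentiableOn ℂ G (thickening δ K) →
    InjOn G (thickening δ K) → ∀ x ∈ K, ∀ y ∈ K,
      ‖deriv G x‖ ≤ C * ‖deriv G y‖ ∧ ‖G x - G y‖ ≤ C * ‖deriv G y‖

/-- FIX: lifting a moving loop to the parameter plane -/
def S_FIX : Prop := ∀ (X G : ℂ → ℂ) (Fm : ℂ → ℂ → ℂ) (γ : ℝ → ℂ → ℂ) (c₀ cs zn : ℂ)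
  (ρ κ δ η : ℝ), 0 < ρ → 0 < κ → 0 < η → 32 * η ≤ δ → cs ∈ ball c₀ ρ →
  DifferentiableOn ℂ X (ball c₀ ρ) → InjOn X (ball c₀ ρ) → ball zn κ ⊆ X '' ball c₀ ρ →
  (∀ τ ∈ Icc (0 : ℝ) 1, DifferentiableOn ℂ G (ball (γ τ cs) δ)) →
  (∀ τ ∈ Icc (0 : ℝ) 1, ∀ ζ ∈ ball (γ τ cs) δ, G ζ ∈ ball zn κ) →
  ContinuousOn (fun p : ℝ × ℂ => γ p.1 p.2) (Icc 0 1 ×ˢ ball c₀ ρ) →
  (∀ τ ∈ Icc (0 : ℝ) 1, DifferentiableOn ℂ (γ τ) (ball c₀ ρ)) →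
  (∀ τ ∈ Icc (0 : ℝ) 1, ∀ c ∈ ball c₀ ρ, ‖γ τ c - γ τ cs‖ ≤ η) →
  Differentiable ℂ (fun p : ℂ × ℂ => Fm p.1 p.2) →
  (∀ τ ∈ Icc (0 : ℝ) 1, ∀ ζ ∈ ball (γ τ cs) δ, ∀ c ∈ ball c₀ ρ, ‖Fm c (G ζ) - ζ‖ ≤ η) →
  ∃ p : ℝ → ℂ, ContinuousOn p (Icc 0 1) ∧
    (∀ τ ∈ Icc (0 : ℝ) 1, p τ ∈ ball c₀ ρ ∧ Fm (p τ) (X (p τ)) = γ τ (p τ)) ∧
    ((∀ c ∈ ball c₀ ρ, γ 0 c = γ 1 c) → p 0 = p 1) ∧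
    ∀ τ ∈ Icc (0 : ℝ) 1, ∀ c ∈ ball c₀ ρ, ∀ ζ ∈ ball (γ τ cs) (4 * η), X c = G ζ →
      Fm c (X c) = γ τ c → c = p τ

/-- PL: the lifted loop is made of two parameter rays and an arc of equipotential -/
def S_PL : Prop := ∀ (d : ℕ) (Ψ : ℂ → ℂ → ℂ) (ψ : ℂ → ℂ) (c₀ : ℂ) (r : ℝ) (A : Set ℝ)
  (z : ℝ → ℝ → ℂ → ℂ) (γ : ℝ → ℂ → ℂ) (bm bp s θ tm τ₀ : ℝ) (m : ℕ) (p : ℝ → ℂ), 2 ≤ d →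
  Bott d Ψ → IsExteriorMap (multibrotSet d) ψ → RaySys d Ψ c₀ r A z →
  (∀ t ∈ A, (d : ℝ) * t ∈ A) → bm ∈ A → bp ∈ A → 0 < s → bm < bp → bp < bm + 1 →
  (∀ c ∈ ball c₀ r, green d c 0 < s) →
  (∀ c ∈ ball c₀ r, ∀ τ ∈ Ioc (0 : ℝ) (1 / 3), γ τ c = z bm (3 * τ * s) c) →
  (∀ c ∈ ball c₀ r, ∀ τ ∈ Icc (1 / 3 : ℝ) (2 / 3),
    γ τ c = Ψ c (ex s (bm + (3 * τ - 1) * (bp - bm)))) →
  (∀ c ∈ ball c₀ r, ∀ τ ∈ Ico (2 / 3 : ℝ) 1, γ τ c = z bp (3 * (1 - τ) * s) c) →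
  (∀ c ∈ ball c₀ r, green d c (γ 0 c) = 0) →
  ContinuousOn p (Icc 0 1) → p 0 = p 1 →
  (∀ τ ∈ Icc (0 : ℝ) 1, p τ ∈ ball c₀ r ∧ P d (m + 1) (p τ) = γ τ (p τ)) →
  τ₀ ∈ Ioo (1 / 3 : ℝ) (2 / 3) → tm = bm + (3 * τ₀ - 1) * (bp - bm) →
  (∃ j : ℤ, (d : ℝ) ^ m * θ = tm + j) → p τ₀ = ψ (ex (s / d ^ m) θ) →
  SectLoop ψ 0 (θ + (bm - tm) / d ^ m) (θ + (bp - tm) / d ^ m) (s / d ^ m) p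

/-- RETR: from a loop in the parameter plane to local connectivity -/
def S_RETR : Prop := ∀ (d : ℕ) (ψ : ℂ → ℂ) (c₀ : ℂ) (r ρ bm bp s θ : ℝ) (p : ℝ → ℂ), 2 ≤ d →
  IsExteriorMap (multibrotSet d) ψ → SectLoop ψ 0 bm bp s p → im p ⊆ ball c₀ r → 0 < ρ →
  Disjoint (ball c₀ ρ) (im p) → c₀ ∈ multibrotSet d → θ ∈ Ioo bm bp →
  Tendsto (fun σ : ℝ => ψ (ex σ θ)) (𝓝[>] 0) (𝓝 c₀) →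
  (∀ σ t, 0 < σ → σ < s → t ∈ Ioo bm bp → ψ (ex σ t) ∈ ball c₀ r) ∧
  (∀ σ t, 0 < σ → ψ (ex σ t) ∈ ball c₀ ρ → σ < s ∧ ∃ j : ℤ, t + j ∈ Ioo bm bp) ∧
  ∃ K : Set ℂ, IsCompact K ∧ IsConnected K ∧ K ⊆ multibrotSet d ∧
    multibrotSet d ∩ ball c₀ ρ ⊆ K ∧ K ⊆ closedBall c₀ r

end Pool.Agent.Y298.LC
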