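import Mathlib
import Pool.Agent.Y272.LC.Stm5
import Pool.Agent.Y739.LC.Bot1
import Pool.Agent.Y664.LC.Bot2
import Pool.Agent.Y297.LC.CG

/-!
# The statement `St_Bott2` of project Y272-LC from the inverse Böttcher maps `Bott`
-/

set_option autoImplicit false

open Set Filter Metric MeasureTheory Topology Complex Bornology

namespace Pool.Agent.Y298.LC

open Pool.Agent.H712R2 (P fc)
open Pool.Agent.H713R2 (IsExteriorMap IsBeta exteriorMap_unique)
open Pool.Agent.H713R2.AR (green)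
open N62a1eb23 (multibrotSet)

theorem log_norm_exp (ζ : ℂ) : Real.log ‖Complex.exp ζ‖ = ζ.re := by
  rw [Complex.norm_exp, Real.log_exp]

theorem exp_mem_Dom {g : ℝ} {ζ : ℂ} : Complex.exp ζ ∈ Dom g ↔ g < ζ.re := by
  unfold Dom
  rw [mem_ofPred_eq, log_norm_exp]

theorem bott2 : Pool.Agent.Y272.LC.St_Bott2 := by
  intro d hd
  obtain ⟨Ψ, hΨ⟩ := Pool.Agent.Y739.LC.bot1 d hd
  have hBOT2 : S_BOT2 := Pool.Agent.Y664.LC.bot2 Pool.Agent.Y297.LC.cg
  refine ⟨fun c ζ => Ψ c (Complex.exp ζ), ⟨?_, ?_, ?_, ?_, ?_, ?_, ?_, ?_⟩, ?_⟩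
  · intro c ζ hζ
    have h1 := hΨ.conj c (Complex.exp ζ) (exp_mem_Dom.2 hζ)
    rw [← Complex.exp_nat_mul] at h1
    exact h1.symm
  · intro c ζ _
    change Ψ c (Complex.exp (ζ + ((2 * Real.pi : ℝ) : ℂ) * I)) = Ψ c (Complex.exp ζ)
    congr 1
    push_cast
    exact Complex.exp_periodic ζ
  · intro c ζ hζ
    change green d c (Ψ c (Complex.exp ζ)) = ζ.re
    rw [hΨ.pot c _ (exp_mem_Dom.2 hζ), log_norm_exp]
  · intro c ζ ζ' h1 h2 h3
    have h4 := hΨ.inj c (exp_mem_Dom.2 h1) (exp_mem_Dom.2 h2) h3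
    obtain ⟨n, hn⟩ := Complex.exp_eq_exp_iff_exists_int.1 h4
    refine ⟨n, ?_⟩
    rw [hn]
    push_cast
    ring
  · intro c z hz
    obtain ⟨w, hw, hwz⟩ := hΨ.surj c z hz
    have hg : 0 ≤ green d c 0 := Pool.Agent.H713R2.AR.green_nonneg hd c 0
    have hw0 : w ≠ 0 := by
      rintro rfl
      have : green d c 0 < Real.log ‖(0 : ℂ)‖ := hw
      rw [norm_zero, Real.log_zero] at this
      linarith
    refine ⟨Complex.log w, ?_, ?_⟩
    · rw [Complex.log_re, ← hwz, hΨ.pot c w hw]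
    · change Ψ c (Complex.exp (Complex.log w)) = z
      rw [Complex.exp_log hw0, hwz]
  · refine hΨ.cont.comp (f := fun q : ℂ × ℂ => (q.1, Complex.exp q.2)) (by fun_prop) ?_
    rintro ⟨c, ζ⟩ h1
    change green d c 0 < Real.log ‖Complex.exp ζ‖
    rw [log_norm_exp]
    exact h1
  · intro c
    refine (hΨ.diffw c).comp (Complex.differentiable_exp.differentiableOn) ?_
    intro ζ hζ
    exact exp_mem_Dom.2 hζ
  · intro β hβ ζ hζ
    have hψ := Pool.Agent.H713R2.exteriorMap_of_beta hβ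
    have h1 : 1 < ‖Complex.exp ζ‖ := by
      rw [Complex.norm_exp]
      exact Real.one_lt_exp_iff.2 hζ
    have h2 : Pool.Agent.Y272.TY.cc β (Complex.exp (-ζ)) =
        Complex.exp ζ * β (Complex.exp ζ)⁻¹ := by
      unfold Pool.Agent.Y272.TY.cc
      rw [Complex.exp_neg, inv_inv]
    obtain ⟨h3, h4⟩ := hBOT2 d Ψ _ hd hΨ hψ (Complex.exp ζ) h1
    rw [h2]
    refine ⟨?_, h4⟩
    rw [← log_norm_exp ζ]
    exact h3
  · intro ζ
    refine (hΨ.diffc (Complex.exp ζ)).mono ?_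
    intro c hc
    change green d c 0 < Real.log ‖Complex.exp ζ‖
    rw [log_norm_exp]
    exact hc

end Pool.Agent.Y298.LC
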