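import Mathlib
import Pool.Agent.Y298.LC.Stm
import Pool.Agent.Y272.TY.Fin5

/-!
# Project LC: the statement about typical parameters
-/

set_option autoImplicit false

open Set Filter Metric MeasureTheory Topology Complex Bornology

namespace Pool.Agent.Y298.LC

open Pool.Agent.H712R2 (P fc)
open Pool.Agent.H713R2 (IsBeta)
open Pool.Agent.Y272.TY (Typ cc)
open Pool.Agent.W677.Mar (pt)

/-- CEI: univalence of the critical orbit maps near a typical parameter -/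
def S_CEI : Prop := ∀ (d : ℕ) (β : ℂ → ℂ) (θ : ℝ) (c₀ : ℂ) (A : ℝ) (R : ℂ), 2 ≤ d → IsBeta d β →
  Typ d β θ c₀ A R → ∀ δ : ℝ, 0 < δ → ∀ᶠ n : ℕ in atTop,
    (∀ c ∈ ball c₀ (Real.exp (-(n * (Real.log d + δ)))),
      ‖deriv (P d (n + 1)) c - deriv (P d (n + 1)) c₀‖ ≤ ‖deriv (P d (n + 1)) c₀‖ / 2) ∧
    Real.exp (n * (Real.log d - δ)) ≤ ‖deriv (P d (n + 1)) c₀‖ ∧
    ‖deriv (P d (n + 1)) c₀‖ ≤ Real.exp (n * (Real.log d + δ)) ∧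
    Real.exp (n * (Real.log d - δ)) ≤ ‖deriv ((fc d c₀)^[n]) c₀‖ ∧
    ‖deriv ((fc d c₀)^[n]) c₀‖ ≤ Real.exp (n * (Real.log d + δ)) ∧
    ∀ ρ : ℝ, 1 / 2 ≤ ρ → ρ < 1 → 1 - ρ ≤ Real.exp (-(n * (Real.log d + 2 * δ))) →
      ‖cc β (pt ρ θ) - c₀‖ ≤ Real.exp (-(n * (Real.log d + δ))) / 2

end Pool.Agent.Y298.LC
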