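import Mathlib
import Pool.Agent.Y298.LC.Stm

/-!
# Project LC: elementary facts
-/

set_option autoImplicit false

open Set Filter Metric MeasureTheory Topology Complex Bornology

namespace Pool.Agent.Y298.LC

open Pool.Agent.H712R2 (P fc)
open Pool.Agent.H713R2 (IsExteriorMap)
open Pool.Agent.H713R2.AR (green)
open N62a1eb23 (multibrotSet)

theorem norm_ex (σ t : ℝ) : ‖ex σ t‖ = Real.exp σ := by
  unfold ex
  rw [Complex.norm_exp]
  congr 1
  simp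

theorem log_norm_ex (σ t : ℝ) : Real.log ‖ex σ t‖ = σ := by
  rw [norm_ex, Real.log_exp]

theorem ex_ne (σ t : ℝ) : ex σ t ≠ 0 := Complex.exp_ne_zero _

theorem ex_mem {g σ t : ℝ} : ex σ t ∈ Dom g ↔ g < σ := by
  unfold Dom
  rw [mem_ofPred_eq, log_norm_ex]

theorem ex_add (σ t σ' t' : ℝ) : ex (σ + σ') (t + t') = ex σ t * ex σ' t' := by
  unfold ex
  rw [← Complex.exp_add]
  congr 1
  push_cast
  ring

theorem ex_int (n : ℤ) : ex 0 n = 1 := by
  unfold ex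
  rw [show (((0 : ℝ) : ℂ) + 2 * Real.pi * ((n : ℝ) : ℂ) * I) = n * (2 * Real.pi * I) by
    push_cast; ring]
  exact Complex.exp_int_mul_two_pi_mul_I n

theorem ex_add_int (σ t : ℝ) (n : ℤ) : ex σ (t + n) = ex σ t := by
  have h := ex_add σ t 0 n
  rw [add_zero, ex_int, mul_one] at h
  exact h

theorem ex_pow (σ t : ℝ) (k : ℕ) : ex σ t ^ k = ex (k * σ) (k * t) := by
  unfold ex
  rw [← Complex.exp_nat_mul]
  congr 1
  push_cast
  ring

theorem continuous_ex : Continuous fun p : ℝ × ℝ => ex p.1 p.2 := by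
  unfold ex
  fun_prop

theorem exists_ex {w : ℂ} (hw : w ≠ 0) : ∃ t : ℝ, w = ex (Real.log ‖w‖) t := by
  refine ⟨Complex.arg w / (2 * Real.pi), ?_⟩
  unfold ex
  have hpi : (2 * Real.pi : ℂ) ≠ 0 := by
    exact_mod_cast (by positivity : (2 * Real.pi : ℝ) ≠ 0)
  rw [show ((Real.log ‖w‖ : ℝ) : ℂ) + 2 * Real.pi * ((Complex.arg w / (2 * Real.pi) : ℝ) : ℂ) * I =
    Complex.log w by
      rw [Complex.log]
      push_cast
      field_simp]
  exact (Complex.exp_log hw).symm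

theorem ex_inj {σ t σ' t' : ℝ} (h : ex σ t = ex σ' t') : σ = σ' ∧ ∃ n : ℤ, t = t' + n := by
  have h1 : σ = σ' := by
    have := congrArg (fun z => Real.log ‖z‖) h
    simpa [log_norm_ex] using this
  subst h1
  refine ⟨rfl, ?_⟩
  unfold ex at h
  rw [Complex.exp_eq_exp_iff_exists_int] at h
  obtain ⟨n, hn⟩ := h
  refine ⟨n, ?_⟩
  have h2 : (2 * Real.pi * I : ℂ) ≠ 0 := Complex.two_pi_I_ne_zero
  have h3 : (2 * Real.pi * I : ℂ) * (t : ℂ) = 2 * Real.pi * I * (t' + n) := by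
    linear_combination hn
  have h4 := mul_left_cancel₀ h2 h3
  exact_mod_cast h4

theorem log_pos_norm {w : ℂ} (h : 0 < Real.log ‖w‖) : 1 < ‖w‖ := by
  by_contra h1
  rw [not_lt] at h1
  have := Real.log_nonpos (norm_nonneg w) h1
  linarith

theorem Dom_zero : Dom 0 = {w : ℂ | 1 < ‖w‖} := by
  ext w
  exact ⟨fun h => log_pos_norm h, fun h => Real.log_pos h⟩

/-- powers under iteration -/
theorem Bott.iter {d : ℕ} {Ψ : ℂ → ℂ → ℂ} (hd : 2 ≤ d) (hΨ : Bott d Ψ) {c w : ℂ}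
    (hw : w ∈ Dom (green d c 0)) (n : ℕ) : (fc d c)^[n] (Ψ c w) = Ψ c (w ^ d ^ n) ∧
      w ^ d ^ n ∈ Dom (green d c 0) := by
  have hg : 0 ≤ green d c 0 := Pool.Agent.H713R2.AR.green_nonneg hd c 0
  induction n with
  | zero => simp [hw]
  | succ n ih =>
    obtain ⟨h1, h2⟩ := ih
    have h3 : w ^ d ^ (n + 1) = (w ^ d ^ n) ^ d := by rw [← pow_mul, pow_succ]
    rw [Function.iterate_succ_apply', h1, h3, hΨ.conj c _ h2]
    refine ⟨rfl, ?_⟩
    unfold Dom at h2 ⊢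
    rw [mem_ofPred_eq] at h2 ⊢
    rw [norm_pow, Real.log_pow]
    have hdR : (2 : ℝ) ≤ d := by exact_mod_cast hd
    nlinarith

/-- the critical orbit of a parameter outside the Multibrot set -/
theorem P_psi {d : ℕ} {Ψ : ℂ → ℂ → ℂ} {ψ : ℂ → ℂ} (hd : 2 ≤ d) (hΨ : Bott d Ψ)
    (hψ : IsExteriorMap (multibrotSet d) ψ) (hB : S_BOT2) {s θ : ℝ} (hs : 0 < s) (n : ℕ) :
    P d (n + 1) (ψ (ex s θ)) = Ψ (ψ (ex s θ)) (ex (d ^ n * s) (d ^ n * θ)) := by
  have hw : 1 < ‖ex s θ‖ := by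
    rw [norm_ex]
    exact Real.one_lt_exp_iff.2 hs
  obtain ⟨h1, h2⟩ := hB d Ψ ψ hd hΨ hψ (ex s θ) hw
  rw [log_norm_ex] at h1
  have hdR : (2 : ℝ) ≤ d := by exact_mod_cast hd
  have hmem : ex s θ ∈ Dom (green d (ψ (ex s θ)) 0) := by
    rw [ex_mem, h1]
    rw [div_lt_iff₀ (by linarith)]
    nlinarith
  have h3 := (hΨ.iter hd hmem n).1
  rw [h2, ex_pow] at h3
  rw [← Pool.Agent.H712R2.iter_c hd n, h3]
  push_cast
  rfl

end Pool.Agent.Y298.LC
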