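import Mathlib
import Pool.Agent.Y298.LC.Base

/-!
# Project LC: the system of rays at a typical parameter
-/

set_option autoImplicit false

open Set Filter Metric MeasureTheory Topology Complex Bornology

namespace Pool.Agent.Y298.LC

open Pool.Agent.H712R2 (P fc)
open Pool.Agent.H713R2 (IsExteriorMap)
open Pool.Agent.H713R2.AR (green)
open N62a1eb23 (multibrotSet)

/-- the hypotheses on the parameter `c₀` and its angle `θ` -/
structure Hyp (d : ℕ) (ψ : ℂ → ℂ) (c₀ : ℂ) (θ : ℝ) : Prop where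
  hd : 2 ≤ d
  ext : IsExteriorMap (multibrotSet d) ψ
  mem : c₀ ∈ multibrotSet d
  θ0 : 0 < θ
  θ1 : θ < 1
  land : Tendsto (fun σ : ℝ => ψ (ex σ θ)) (𝓝[>] 0) (𝓝 c₀)
  notper : ∀ i j : ℕ, i < j → ∀ n : ℤ, (d : ℝ) ^ j * θ ≠ (d : ℝ) ^ i * θ + n
  rec0 : ∀ κ : ℝ, 0 < κ → ∃ (m : ℕ) (n : ℤ), |(d : ℝ) ^ m * θ - n| < κ
  int : ∀ k : ℕ, P d (k + 1) c₀ ∉ interior {z | green d c₀ z = 0}
  inf : ∀ i j : ℕ, i < j → P d (i + 1) c₀ ≠ P d (j + 1) c₀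

/-- a parameter disc avoiding finitely many rational rays -/
theorem Hyp.disc {d : ℕ} {ψ : ℂ → ℂ} {c₀ : ℂ} {θ : ℝ} (h : Hyp d ψ c₀ θ) {Ψ : ℂ → ℂ → ℂ}
    (hΨ : Bott d Ψ) (hA : S_ACC) (F : Finset ℝ)
    (hF : ∀ t ∈ F, ∃ k q : ℕ, 1 ≤ q ∧ ∃ n : ℤ, (d : ℝ) ^ (k + q) * t = (d : ℝ) ^ k * t + n) :
    ∃ r : ℝ, 0 < r ∧ ∀ t ∈ F, ∀ n : ℤ, ∀ σ, 0 < σ → ψ (ex σ (t + n)) ∉ ball c₀ r := by
  classical
  induction F using Finset.induction_on with
  | empty => exact ⟨1, one_pos, fun t ht => absurd ht (Finset.notMem_empty t)⟩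
  | insert a F ha ih =>
    obtain ⟨r, hr, h1⟩ := ih fun t ht => hF t (Finset.mem_insert_of_mem ht)
    obtain ⟨k, q, hq, n, hn⟩ := hF a (Finset.mem_insert_self a F)
    obtain ⟨r', hr', h2⟩ := hA d Ψ ψ c₀ a k q h.hd hΨ h.ext h.mem hq ⟨n, hn⟩ (h.int k)
      (fun h3 => h.inf k (k + q) (by omega) h3.symm)
    refine ⟨min r r', lt_min hr hr', fun t ht n σ hσ hmem => ?_⟩
    rw [mem_ball, lt_min_iff] at hmem
    rcases Finset.mem_insert.1 ht with rfl | ht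
    · rw [ex_add_int] at hmem
      exact h2 σ hσ (mem_ball.2 hmem.2)
    · exact h1 t ht n σ hσ (mem_ball.2 hmem.1)

/-- the landing data: rays with angles `tm / d ^ j`, `tp / d ^ j`, `j ≤ N`, for parameters near `c₀` -/
structure Land (d : ℕ) (Ψ : ℂ → ℂ → ℂ) (c₀ : ℂ) (tm tp : ℝ) (N : ℕ) (r : ℝ) (A : Set ℝ)
    (z : ℝ → ℝ → ℂ → ℂ) (y : ℕ → ℂ → ℂ) : Prop where
  r0 : 0 < r
  ray : RaySys d Ψ c₀ r A z
  clos : ∀ t ∈ A, (d : ℝ) * t ∈ A
  memm : ∀ j ≤ N, tm / d ^ j ∈ A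
  memp : ∀ j ≤ N, tp / d ^ j ∈ A
  ydiff : ∀ j ≤ N, DifferentiableOn ℂ (y j) (ball c₀ r)
  limm : ∀ j ≤ N, TendstoUniformlyOn (z (tm / d ^ j)) (y j) (𝓝[>] 0) (ball c₀ r)
  limp : ∀ j ≤ N, TendstoUniformlyOn (z (tp / d ^ j)) (y j) (𝓝[>] 0) (ball c₀ r)
  yne : ∀ j < N, y j c₀ ≠ y (j + 1) c₀

/-- orbit of a periodic angle -/
theorem per_orbit {d : ℕ} {a : ℝ} {q : ℕ} (hq : 1 ≤ q) (h : ∃ n : ℤ, (d : ℝ) ^ q * a = a + n)
    (j : ℕ) : ∃ j' < q, ∃ n : ℤ, (d : ℝ) ^ j * a = (d : ℝ) ^ j' * a + n := by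
  obtain ⟨n, hn⟩ := h
  induction j using Nat.strong_induction_on with
  | _ j ih =>
    rcases lt_or_ge j q with hj | hj
    · exact ⟨j, hj, 0, by simp⟩
    · obtain ⟨j', hj', n', hn'⟩ := ih (j - q) (by omega)
      refine ⟨j', hj', n' + (d : ℤ) ^ (j - q) * n, ?_⟩
      have h1 : (d : ℝ) ^ j = (d : ℝ) ^ (j - q) * (d : ℝ) ^ q := by
        rw [← pow_add]
        congr 1
        omega
      rw [h1, mul_assoc, hn, mul_add, hn']
      push_cast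
      ring

theorem per_shift {d : ℕ} {a : ℝ} {q : ℕ} (h : ∃ n : ℤ, (d : ℝ) ^ q * a = a + n) {t : ℝ}
    (ht : ∃ (j : ℕ) (n : ℤ), t = (d : ℝ) ^ j * a + n) : ∃ n : ℤ, (d : ℝ) ^ q * t = t + n := by
  obtain ⟨n, hn⟩ := h
  obtain ⟨j, m, rfl⟩ := ht
  refine ⟨(d : ℤ) ^ j * n + (d : ℤ) ^ q * m - m, ?_⟩
  have : (d : ℝ) ^ q * ((d : ℝ) ^ j * a + m) = (d : ℝ) ^ j * ((d : ℝ) ^ q * a) + (d : ℝ) ^ q * m := by
    ring
  rw [this, hn]
  push_cast
  ring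

theorem Hyp.landing {d : ℕ} {ψ : ℂ → ℂ} {c₀ : ℂ} {θ : ℝ} (h : Hyp d ψ c₀ θ) {Ψ : ℂ → ℂ → ℂ}
    (hΨ : Bott d Ψ) (hA : S_ACC) (hR : S_RAY) (hALA : S_ALA) (hALB : S_ALB) (hV : S_VIT)
    (hPER : S_PER) : ∃ tm tp : ℝ, θ - 1 < tm ∧ tm < 0 ∧ 0 < tp ∧ tp < θ ∧
      ∀ N : ℕ, ∃ (r : ℝ) (A : Set ℝ) (z : ℝ → ℝ → ℂ → ℂ) (y : ℕ → ℂ → ℂ),
        Land d Ψ c₀ tm tp N r A z y := by
  classical
  have hd := h.hd
  have hdR : (2 : ℝ) ≤ d := by exact_mod_cast hd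
  have hd0 : (d : ℝ) ≠ 0 := by linarith
  obtain ⟨x, a, q, hx, hq, hqa, hS, ⟨jp, np, hjp⟩, ⟨jm, nm, hjm⟩, hno⟩ :=
    hPER d θ hd h.θ0 h.θ1 h.notper h.rec0
  obtain ⟨tp, htp⟩ : ∃ tp : ℝ, tp = (d : ℝ) ^ jp * a + np := ⟨_, rfl⟩
  obtain ⟨tm, htm⟩ : ∃ tm : ℝ, tm = (d : ℝ) ^ jm * a + nm := ⟨_, rfl⟩
  rw [← htp] at hjp
  rw [← htm] at hjm
  refine ⟨tm, tp, hjm.1, hjm.2, hjp.1, hjp.2, fun N => ?_⟩
  obtain ⟨A₀, hA₀⟩ : ∃ A₀ : Set ℝ, A₀ = {t | ∃ (j : ℕ) (n : ℤ), t = (d : ℝ) ^ j * a + n} := ⟨_, rfl⟩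
  have hmemA₀ : ∀ t, t ∈ A₀ ↔ ∃ (j : ℕ) (n : ℤ), t = (d : ℝ) ^ j * a + n := fun t => by
    rw [hA₀]; exact Iff.rfl
  have htm0 : tm ∈ A₀ := (hmemA₀ _).2 ⟨jm, nm, htm⟩
  have htp0 : tp ∈ A₀ := (hmemA₀ _).2 ⟨jp, np, htp⟩
  have hclos0 : ∀ t ∈ A₀, (d : ℝ) * t ∈ A₀ := by
    intro t ht
    obtain ⟨j, n, rfl⟩ := (hmemA₀ _).1 ht
    refine (hmemA₀ _).2 ⟨j + 1, d * n, ?_⟩
    push_cast
    ring
  obtain ⟨A, hAdef⟩ : ∃ A : Set ℝ, A = {t | t ∈ A₀ ∨ (∃ j ≤ N, t = tm / d ^ j) ∨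
      ∃ j ≤ N, t = tp / d ^ j} := ⟨_, rfl⟩
  have hmemA : ∀ t, t ∈ A ↔ (t ∈ A₀ ∨ (∃ j ≤ N, t = tm / d ^ j) ∨ ∃ j ≤ N, t = tp / d ^ j) :=
    fun t => by rw [hAdef]; exact Iff.rfl
  have hA0A : A₀ ⊆ A := fun t ht => (hmemA t).2 (Or.inl ht)
  have hdiv : ∀ (u : ℝ) (j : ℕ), (d : ℝ) * (u / d ^ (j + 1)) = u / d ^ j := by
    intro u j
    rw [pow_succ]
    field_simp
  have hclos : ∀ t ∈ A, (d : ℝ) * t ∈ A := by
    intro t ht
    rcases (hmemA t).1 ht with h1 | ⟨j, hj, rfl⟩ | ⟨j, hj, rfl⟩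
    · exact hA0A (hclos0 t h1)
    · rcases j with _ | j
      · rw [pow_zero, div_one]
        exact hA0A (hclos0 _ htm0)
      · rw [hdiv]
        exact (hmemA _).2 (Or.inr (Or.inl ⟨j, by omega, rfl⟩))
    · rcases j with _ | j
      · rw [pow_zero, div_one]
        exact hA0A (hclos0 _ htp0)
      · rw [hdiv]
        exact (hmemA _).2 (Or.inr (Or.inr ⟨j, by omega, rfl⟩))
  -- the finite set of representatives
  obtain ⟨F, hF⟩ : ∃ F : Finset ℝ, F = (Finset.range q).image (fun j => (d : ℝ) ^ j * a) ∪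
      ((Finset.range (N + 1)).image (fun j => tm / (d : ℝ) ^ j) ∪
        (Finset.range (N + 1)).image (fun j => tp / (d : ℝ) ^ j)) := ⟨_, rfl⟩
  have hrat : ∀ u ∈ A₀, ∀ j : ℕ, ∃ k q' : ℕ, 1 ≤ q' ∧ ∃ n : ℤ,
      (d : ℝ) ^ (k + q') * (u / d ^ j) = (d : ℝ) ^ k * (u / d ^ j) + n := by
    intro u hu j
    obtain ⟨n, hn⟩ := per_shift hqa ((hmemA₀ _).1 hu)
    refine ⟨j, q, hq, n, ?_⟩
    have h1 : (d : ℝ) ^ j * (u / d ^ j) = u := by field_simp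
    rw [pow_add, mul_comm ((d : ℝ) ^ j), mul_assoc, h1, hn]
  have hFrat : ∀ t ∈ F, ∃ k q' : ℕ, 1 ≤ q' ∧ ∃ n : ℤ,
      (d : ℝ) ^ (k + q') * t = (d : ℝ) ^ k * t + n := by
    intro t ht
    rw [hF, Finset.mem_union, Finset.mem_union, Finset.mem_image, Finset.mem_image,
      Finset.mem_image] at ht
    rcases ht with ⟨j, _, rfl⟩ | ⟨j, _, rfl⟩ | ⟨j, _, rfl⟩
    · have := hrat ((d : ℝ) ^ j * a) ((hmemA₀ _).2 ⟨j, 0, by simp⟩) 0
      simpa using this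
    · exact hrat tm htm0 j
    · exact hrat tp htp0 j
  obtain ⟨r, hr, hdisc⟩ := h.disc hΨ hA F hFrat
  have hrep0 : ∀ t ∈ A₀, ∃ t' ∈ (Finset.range q).image (fun j => (d : ℝ) ^ j * a), ∃ n : ℤ,
      t = t' + n := by
    intro t ht
    obtain ⟨j, n, rfl⟩ := (hmemA₀ _).1 ht
    obtain ⟨j', hj', n', hn'⟩ := per_orbit hq hqa j
    refine ⟨(d : ℝ) ^ j' * a, Finset.mem_image_of_mem _ (Finset.mem_range.2 hj'), n' + n, ?_⟩
    rw [hn']
    push_cast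
    ring
  have havoid : ∀ t ∈ A, ∀ σ, 0 < σ → ψ (ex σ t) ∉ ball c₀ r := by
    intro t ht σ hσ
    rcases (hmemA t).1 ht with h1 | ⟨j, hj, rfl⟩ | ⟨j, hj, rfl⟩
    · obtain ⟨t', ht', n, rfl⟩ := hrep0 t h1
      exact hdisc t' (by rw [hF]; exact Finset.mem_union_left _ ht') n σ hσ
    · have := hdisc (tm / d ^ j) (by
        rw [hF]
        exact Finset.mem_union_right _ (Finset.mem_union_left _
          (Finset.mem_image_of_mem _ (Finset.mem_range.2 (by omega))))) 0 σ hσ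
      simpa using this
    · have := hdisc (tp / d ^ j) (by
        rw [hF]
        exact Finset.mem_union_right _ (Finset.mem_union_right _
          (Finset.mem_image_of_mem _ (Finset.mem_range.2 (by omega))))) 0 σ hσ
      simpa using this
  obtain ⟨z, hz⟩ := hR d Ψ ψ c₀ r A hd hΨ h.ext hr hclos havoid
  -- the set of parameters on the ray
  obtain ⟨T, hT⟩ : ∃ T : Set ℂ, T = {c | ∃ s : ℝ, 0 < s ∧ c = ψ (ex s θ) ∧ c ∈ ball c₀ r} :=
    ⟨_, rfl⟩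
  have hTsub : T ⊆ ball c₀ r := by
    intro c hc
    rw [hT] at hc
    obtain ⟨_, _, _, h1⟩ := hc
    exact h1
  have hfreq : ∃ᶠ c in 𝓝[≠] c₀, c ∈ T := by
    have h1 : Tendsto (fun σ : ℝ => ψ (ex σ θ)) (𝓝[>] 0) (𝓝[≠] c₀) := by
      rw [tendsto_nhdsWithin_iff]
      refine ⟨h.land, ?_⟩
      filter_upwards [self_mem_nhdsWithin] with σ hσ
      intro h2
      rw [mem_singleton_iff] at h2
      have h3 : ψ (ex σ θ) ∈ (multibrotSet d)ᶜ := by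
        rw [← h.ext.image]
        refine ⟨_, ?_, rfl⟩
        rw [mem_ofPred_eq, norm_ex]
        exact Real.one_lt_exp_iff.2 hσ
      rw [h2] at h3
      exact h3 h.mem
    refine h1.frequently ?_
    apply Eventually.frequently
    filter_upwards [self_mem_nhdsWithin, h.land (ball_mem_nhds c₀ hr)] with σ hσ h2
    rw [hT]
    exact ⟨σ, hσ, rfl, h2⟩
  have hacc : AccPt c₀ (𝓟 T) := by
    rw [accPt_iff_frequently_nhdsNE]
    exact hfreq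
  -- limits on `T`
  have hlim0 : ∀ c ∈ T, ∃ p, ∀ t ∈ A₀, Tendsto (fun σ => z t σ c) (𝓝[>] 0) (𝓝 p) := by
    intro c hc
    rw [hT] at hc
    obtain ⟨s, hs, rfl, hcb⟩ := hc
    obtain ⟨p, _, hp⟩ := hALA d Ψ ψ s θ x c₀ r A A₀ z hd hΨ h.ext hs hx hz hcb hA0A hclos0 (by
      intro t ht
      obtain ⟨j, n, rfl⟩ := (hmemA₀ _).1 ht
      obtain ⟨m, hm⟩ := hS j
      refine ⟨m - n, ?_⟩
      have : (d : ℝ) ^ j * a + n + ((m - n : ℤ) : ℝ) = (d : ℝ) ^ j * a + m := by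
        push_cast
        ring
      rw [this]
      exact hm) ⟨(Finset.range q).image (fun j => (d : ℝ) ^ j * a), by
        intro t ht
        rw [Finset.mem_coe, Finset.mem_image] at ht
        obtain ⟨j, _, rfl⟩ := ht
        exact (hmemA₀ _).2 ⟨j, 0, by simp⟩, hrep0⟩
    exact ⟨p, hp⟩
  have hx' : ∃ n : ℤ, (d : ℝ) * ((θ - 1) / d) = θ + n := ⟨-1, by push_cast; field_simp; ring⟩
  have harc : ∀ u : ℝ, θ - 1 < u → u < θ → ∀ j : ℕ,
      ∃ n : ℤ, u / (d : ℝ) ^ (j + 1) + n ∈ Ioo ((θ - 1) / d) ((θ - 1) / d + 1 / d) := by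
    intro u hu1 hu2 j
    refine ⟨0, ?_⟩
    rw [Int.cast_zero, add_zero, ← add_div, sub_add_cancel, pow_succ, ← div_div]
    have hp : (1 : ℝ) ≤ (d : ℝ) ^ j := one_le_pow₀ (by linarith)
    have hp0 : (0 : ℝ) < (d : ℝ) ^ j := by linarith
    have h1 := h.θ0
    have h2 := h.θ1
    constructor
    · apply div_lt_div_of_pos_right _ (by linarith)
      rw [lt_div_iff₀ hp0]
      nlinarith
    · apply div_lt_div_of_pos_right _ (by linarith)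
      rw [div_lt_iff₀ hp0]
      nlinarith
  have hmm : ∀ j ≤ N, tm / (d : ℝ) ^ j ∈ A := fun j hj => (hmemA _).2 (Or.inr (Or.inl ⟨j, hj, rfl⟩))
  have hmp : ∀ j ≤ N, tp / (d : ℝ) ^ j ∈ A := fun j hj => (hmemA _).2 (Or.inr (Or.inr ⟨j, hj, rfl⟩))
  have hlimj : ∀ c ∈ T, ∀ j ≤ N, ∃ p, Tendsto (fun σ => z (tm / (d : ℝ) ^ j) σ c) (𝓝[>] 0) (𝓝 p) ∧
      Tendsto (fun σ => z (tp / (d : ℝ) ^ j) σ c) (𝓝[>] 0) (𝓝 p) := by
    intro c hc j
    induction j with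
    | zero =>
      intro _
      obtain ⟨p, hp⟩ := hlim0 c hc
      refine ⟨p, ?_, ?_⟩
      · have := hp tm htm0
        simpa using this
      · have := hp tp htp0
        simpa using this
    | succ j ih =>
      intro hj
      obtain ⟨p, h1, h2⟩ := ih (by omega)
      rw [← hdiv] at h1 h2
      rw [hT] at hc
      obtain ⟨s, hs, rfl, hcb⟩ := hc
      refine hALB d Ψ ψ s θ ((θ - 1) / d) c₀ r A z (tm / (d : ℝ) ^ (j + 1)) (tp / (d : ℝ) ^ (j + 1))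
        p hd hΨ h.ext hs hx' hz hcb (hmm _ hj) (hmp _ hj) (hclos _ (hmm _ hj))
        (hclos _ (hmp _ hj)) (harc tm hjm.1 (by linarith [hjm.2, h.θ0]) j)
        (harc tp (by linarith [hjp.1, h.θ1]) hjp.2 j) h1 h2
  have hlimA : ∀ t ∈ A, ∀ c ∈ T, ∃ p, Tendsto (fun σ => z t σ c) (𝓝[>] 0) (𝓝 p) := by
    intro t ht c hc
    rcases (hmemA t).1 ht with h1 | ⟨j, hj, rfl⟩ | ⟨j, hj, rfl⟩
    · obtain ⟨p, hp⟩ := hlim0 c hc
      exact ⟨p, hp t h1⟩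
    · obtain ⟨p, hp, _⟩ := hlimj c hc j hj
      exact ⟨p, hp⟩
    · obtain ⟨p, _, hp⟩ := hlimj c hc j hj
      exact ⟨p, hp⟩
  -- Vitali
  obtain ⟨B, hB⟩ : ∃ B : ℝ, B = max 1 (‖c₀‖ + r) := ⟨_, rfl⟩
  have hB1 : 1 ≤ B := by rw [hB]; exact le_max_left _ _
  have hBc : ∀ c ∈ ball c₀ r, ‖c‖ ≤ B := by
    intro c hc
    rw [mem_ball, dist_eq_norm] at hc
    have h1 : ‖c‖ ≤ ‖c₀‖ + ‖c - c₀‖ := by
      have := norm_add_le c₀ (c - c₀)
      rwa [add_sub_cancel] at this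
    rw [hB]
    exact le_trans (by linarith) (le_max_right _ _)
  have hbd : ∀ t ∈ A, ∀ σ ∈ Ioc (0 : ℝ) 1, ∀ c ∈ ball c₀ r, ‖z t σ c‖ ≤ 2 * B * Real.exp 1 := by
    intro t ht σ hσ c hc
    have h1 := Pool.Agent.H713R2.AR.norm_iter_le hd hB1 (hBc c hc) (z t σ c) 0
    rw [Function.iterate_zero, id, pow_zero, one_mul, hz.pot t ht σ hσ.1 c hc] at h1
    refine h1.trans ?_
    have := Real.exp_le_exp.2 hσ.2
    nlinarith
  have hY : ∀ t ∈ A, ∃ y : ℂ → ℂ, DifferentiableOn ℂ y (ball c₀ r) ∧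
      ∀ ρ, ρ < r → TendstoUniformlyOn (z t) y (𝓝[>] 0) (closedBall c₀ ρ) := fun t ht =>
    hV c₀ r (2 * B * Real.exp 1) (z t) T hr (fun σ hσ => hz.diff t ht σ hσ.1) (hbd t ht) hTsub hacc
      (hlimA t ht)
  choose! Y hYd hYu using hY
  have hYlim : ∀ t ∈ A, ∀ c ∈ ball c₀ r, Tendsto (fun σ => z t σ c) (𝓝[>] 0) (𝓝 (Y t c)) := by
    intro t ht c hc
    have h1 := mem_ball.1 hc
    exact (hYu t ht (dist c c₀) h1).tendsto_at (mem_closedBall.2 le_rfl)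
  have hYeq : ∀ t ∈ A, ∀ t' ∈ A, (∀ c ∈ T, Y t c = Y t' c) → ∀ c ∈ ball c₀ r, Y t c = Y t' c := by
    intro t ht t' ht' heq
    have h1 : AnalyticOnNhd ℂ (Y t) (ball c₀ r) := (hYd t ht).analyticOnNhd isOpen_ball
    have h2 : AnalyticOnNhd ℂ (Y t') (ball c₀ r) := (hYd t' ht').analyticOnNhd isOpen_ball
    exact h1.eqOn_of_preconnected_of_frequently_eq h2 (convex_ball c₀ r).isPreconnected
      (mem_ball_self hr) (hfreq.mono heq)
  have hne : (𝓝[>] (0 : ℝ)).NeBot := inferInstance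
  have hY0 : ∀ t ∈ A₀, ∀ t' ∈ A₀, ∀ c ∈ ball c₀ r, Y t c = Y t' c := by
    intro t ht t' ht'
    apply hYeq t (hA0A ht) t' (hA0A ht')
    intro c hc
    obtain ⟨p, hp⟩ := hlim0 c hc
    rw [tendsto_nhds_unique (hYlim t (hA0A ht) c (hTsub hc)) (hp t ht),
      tendsto_nhds_unique (hYlim t' (hA0A ht') c (hTsub hc)) (hp t' ht')]
  have hYj : ∀ j ≤ N, ∀ c ∈ ball c₀ r, Y (tm / (d : ℝ) ^ j) c = Y (tp / (d : ℝ) ^ j) c := by
    intro j hj
    apply hYeq _ (hmm j hj) _ (hmp j hj)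
    intro c hc
    obtain ⟨p, hp, hp'⟩ := hlimj c hc j hj
    rw [tendsto_nhds_unique (hYlim _ (hmm j hj) c (hTsub hc)) hp,
      tendsto_nhds_unique (hYlim _ (hmp j hj) c (hTsub hc)) hp']
  have hYf : ∀ t ∈ A, ∀ c ∈ ball c₀ r, fc d c (Y t c) = Y ((d : ℝ) * t) c := by
    intro t ht c hc
    have hcf : Continuous (fc d c) := by unfold fc; fun_prop
    have h1 := (hcf.tendsto (Y t c)).comp (hYlim t ht c hc)
    have h2 : Tendsto (fun σ : ℝ => (d : ℝ) * σ) (𝓝[>] 0) (𝓝[>] 0) := by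
      rw [tendsto_nhdsWithin_iff]
      constructor
      · have : Tendsto (fun σ : ℝ => (d : ℝ) * σ) (𝓝 0) (𝓝 ((d : ℝ) * 0)) :=
          tendsto_id.const_mul _
        rw [mul_zero] at this
        exact this.mono_left nhdsWithin_le_nhds
      · filter_upwards [self_mem_nhdsWithin] with σ hσ
        have hσ' : (0 : ℝ) < σ := hσ
        exact mul_pos (by linarith) hσ'
    have h3 := (hYlim _ (hclos t ht) c hc).comp h2
    refine tendsto_nhds_unique h1 (h3.congr' ?_)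
    filter_upwards [self_mem_nhdsWithin] with σ hσ
    exact (hz.conj t ht σ hσ c hc).symm
  have hc0 : c₀ ∈ ball c₀ r := mem_ball_self hr
  refine ⟨r / 2, A, z, fun j => Y (tm / (d : ℝ) ^ j), ?_⟩
  have hsub : ball c₀ (r / 2) ⊆ ball c₀ r := ball_subset_ball (by linarith)
  refine ⟨by linarith, ?_, hclos, hmm, hmp, ?_, ?_, ?_, ?_⟩
  · exact ⟨fun t ht σ hσ => (hz.diff t ht σ hσ).mono hsub,
      fun t ht => (hz.cont t ht).mono (prod_mono subset_rfl hsub),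
      fun t ht σ hσ c hc => hz.conj t ht σ hσ c (hsub hc),
      fun t ht σ hσ c hc => hz.pot t ht σ hσ c (hsub hc),
      fun t ht σ hσ c hc => hz.high t ht σ hσ c (hsub hc),
      fun t ht j hj σ hσ c hc => hz.rot t ht j hj σ hσ c (hsub hc)⟩
  · exact fun j hj => (hYd _ (hmm j hj)).mono hsub
  · exact fun j hj => (hYu _ (hmm j hj) (r / 2) (by linarith)).mono ball_subset_closedBall
  · intro j hj
    refine ((hYu _ (hmp j hj) (r / 2) (by linarith)).mono ball_subset_closedBall).congr_right ?_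
    intro c hc
    exact (hYj j hj c (hsub hc)).symm
  · intro j hj heq
    have heq' : Y (tm / (d : ℝ) ^ j) c₀ = Y (tm / (d : ℝ) ^ (j + 1)) c₀ := heq
    -- push forward
    have hpush : ∀ i ≤ j, Y (tm / (d : ℝ) ^ (j - i)) c₀ = Y (tm / (d : ℝ) ^ (j + 1 - i)) c₀ := by
      intro i
      induction i with
      | zero => intro _; simpa using heq'
      | succ i ih =>
        intro hi
        have h1 := ih (by omega)
        have h2 := congrArg (fc d c₀) h1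
        rw [hYf _ (hmm _ (by omega)) c₀ hc0, hYf _ (hmm _ (by omega)) c₀ hc0] at h2
        have e1 : j - i = (j - (i + 1)) + 1 := by omega
        have e2 : j + 1 - i = (j + 1 - (i + 1)) + 1 := by omega
        rw [e1, e2, hdiv, hdiv] at h2
        exact h2
    have h1 := hpush j le_rfl
    rw [Nat.sub_self, show j + 1 - j = 1 by omega, pow_zero, div_one, pow_one] at h1
    -- the preimage in the cycle
    obtain ⟨nq, hnq⟩ := hqa
    obtain ⟨M, hM⟩ : ∃ M : ℤ, M = (d : ℤ) ^ jm * nq - nm := ⟨_, rfl⟩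
    have ht'' : tm / d + M / d ∈ A₀ := by
      rw [hmemA₀]
      have hqj : 1 ≤ jm + q := by omega
      refine ⟨jm + q - 1, 0, ?_⟩
      have h5 : (d : ℝ) ^ (jm + q - 1) * d = (d : ℝ) ^ jm * (d : ℝ) ^ q := by
        rw [← pow_succ, ← pow_add]
        congr 1
        omega
      rw [Int.cast_zero, add_zero, ← add_div, div_eq_iff hd0, mul_right_comm, h5, mul_assoc, hnq,
        htm, hM]
      push_cast
      ring
    have hmem1 : tm / (d : ℝ) ∈ A := by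
      have := hmm 1 (by omega)
      rwa [pow_one] at this
    have hrot : Y (tm / d + M / d) c₀ = ex 0 (M / d) * Y (tm / d) c₀ := by
      have h6 := hYlim _ (hA0A ht'') c₀ hc0
      have h7 := (hYlim _ hmem1 c₀ hc0).const_mul (ex 0 (M / d))
      refine tendsto_nhds_unique h6 (h7.congr' ?_)
      filter_upwards [self_mem_nhdsWithin] with σ hσ
      exact (hz.rot _ hmem1 M (hA0A ht'') σ hσ c₀ hc0).symm
    rw [hY0 _ ht'' _ htm0 c₀ hc0, ← h1] at hrot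
    have hv : Y tm c₀ ≠ 0 := by
      intro hv
      have h8 := hYf tm (hA0A htm0) c₀ hc0
      rw [hY0 _ (hclos0 _ htm0) _ htm0 c₀ hc0, hv] at h8
      unfold fc at h8
      rw [zero_pow (by omega), zero_add] at h8
      have h9 := h.inf 0 1 (by omega)
      apply h9
      have h10 : P d 1 c₀ = 0 := by rw [Pool.Agent.H712R2.P_one hd, h8]
      have h11 : P d 2 c₀ = 0 := by
        rw [show (2 : ℕ) = 1 + 1 from rfl, Pool.Agent.H712R2.P_succ, h10, zero_pow (by omega),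
          zero_add, h8]
      rw [show 0 + 1 = 1 from rfl, show 1 + 1 = 2 from rfl, h10, h11]
    have hex : ex 0 (M / d) = 1 := by
      have : (ex 0 (M / d) - 1) * Y tm c₀ = 0 := by
        rw [sub_mul, one_mul, ← hrot, sub_self]
      rcases mul_eq_zero.1 this with h8 | h8
      · exact sub_eq_zero.1 h8
      · exact absurd h8 hv
    rw [← ex_int 0] at hex
    obtain ⟨_, n, hn⟩ := ex_inj hex
    rw [Int.cast_zero, zero_add] at hn
    obtain ⟨j₀, n₀, h12⟩ := (hmemA₀ _).1 ht''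
    refine hno j₀ (n₀ - n) ?_
    have h13 : (d : ℝ) ^ j₀ * a + ((n₀ - n : ℤ) : ℝ) = tm / d := by
      push_cast
      linarith
    rw [h13]
    constructor
    · exact div_lt_div_of_pos_right hjm.1 (by linarith)
    · exact div_lt_div_of_pos_right (by linarith [hjm.2, h.θ0]) (by linarith)

end Pool.Agent.Y298.LC
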