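import Mathlib
import Pool.Agent.Y298.LC.Rays

/-!
# Project LC: loops made of two rays and an arc of equipotential
-/

set_option autoImplicit false

open Set Filter Metric MeasureTheory Topology Complex Bornology

namespace Pool.Agent.Y298.LC

open Pool.Agent.H712R2 (P fc)
open Pool.Agent.H713R2 (IsExteriorMap)
open Pool.Agent.H713R2.AR (green)
open N62a1eb23 (multibrotSet)

theorem contOn_cover {X Y : Type*} [TopologicalSpace X] [TopologicalSpace Y] {f : X → Y}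
    {S A B : Set X} (hA : IsClosed A) (hB : IsClosed B) (hS : S ⊆ A ∪ B)
    (h1 : ContinuousOn f (S ∩ A)) (h2 : ContinuousOn f (S ∩ B)) : ContinuousOn f S := by
  intro x hx
  have h3 : S = (S ∩ A) ∪ (S ∩ B) := by
    rw [← inter_union_distrib_left, inter_eq_left.2 hS]
  rw [h3]
  apply ContinuousWithinAt.union
  · by_cases h : x ∈ A
    · exact h1 x ⟨hx, h⟩
    · exact continuousWithinAt_of_notMem_closure
        (fun h4 => h (closure_minimal inter_subset_right hA h4))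
  · by_cases h : x ∈ B
    · exact h2 x ⟨hx, h⟩
    · exact continuousWithinAt_of_notMem_closure
        (fun h4 => h (closure_minimal inter_subset_right hB h4))

/-- the extension of the ray to the landing point -/
noncomputable def zx (z : ℝ → ℝ → ℂ → ℂ) (y : ℂ → ℂ) (t σ : ℝ) (c : ℂ) : ℂ :=
  if 0 < σ then z t σ c else y c

theorem zx_cont {z : ℝ → ℝ → ℂ → ℂ} {y : ℂ → ℂ} {t : ℝ} {c₀ : ℂ} {r : ℝ}
    (hz : ContinuousOn (fun p : ℝ × ℂ => z t p.1 p.2) (Ioi 0 ×ˢ ball c₀ r))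
    (hy : ContinuousOn y (ball c₀ r))
    (hl : TendstoUniformlyOn (z t) y (𝓝[>] 0) (ball c₀ r)) :
    ContinuousOn (fun p : ℝ × ℂ => zx z y t p.1 p.2) (Ici 0 ×ˢ ball c₀ r) := by
  rintro ⟨σ, c⟩ ⟨hσ, hc⟩
  rcases (show (0 : ℝ) ≤ σ from hσ).lt_or_eq with h | h
  · apply ContinuousAt.continuousWithinAt
    have ho : Ioi (0 : ℝ) ×ˢ ball c₀ r ∈ 𝓝 (σ, c) := (isOpen_Ioi.prod isOpen_ball).mem_nhds ⟨h, hc⟩
    have h1 := (hz (σ, c) ⟨h, hc⟩).continuousAt ho
    refine h1.congr ?_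
    filter_upwards [ho] with p hp
    have hp1 : 0 < p.1 := hp.1
    unfold zx
    rw [if_pos hp1]
  · subst h
    rw [Metric.continuousWithinAt_iff]
    intro ε hε
    have h1 := (Metric.tendstoUniformlyOn_iff.1 hl) (ε / 2) (by linarith)
    obtain ⟨u, hu, hu1⟩ := (mem_nhdsGT_iff_exists_Ioo_subset).1 h1
    obtain ⟨δ2, hδ2, h2⟩ := Metric.continuousWithinAt_iff.1 (hy c hc) (ε / 2) (by linarith)
    have hu' : (0 : ℝ) < u := hu
    refine ⟨min u δ2, lt_min hu' hδ2, ?_⟩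
    rintro ⟨σ', c'⟩ ⟨hσ', hc'⟩ hdist
    rw [Prod.dist_eq, max_lt_iff] at hdist
    obtain ⟨hd1, hd2⟩ := hdist
    have h3 : dist (y c') (y c) < ε / 2 := h2 hc' (lt_of_lt_of_le hd2 (min_le_right _ _))
    have h4 : zx z y t 0 c = y c := by
      unfold zx
      rw [if_neg (lt_irrefl _)]
    change dist (zx z y t σ' c') (zx z y t 0 c) < ε
    rw [h4]
    by_cases h5 : 0 < σ'
    · have h6 : σ' ∈ Ioo 0 u := by
        refine ⟨h5, ?_⟩
        have : dist σ' 0 < u := lt_of_lt_of_le hd1 (min_le_left _ _)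
        rw [Real.dist_eq, sub_zero, abs_of_pos h5] at this
        exact this
      have h7 := hu1 h6 c' hc'
      unfold zx
      rw [if_pos h5]
      have h8 := dist_triangle (z t σ' c') (y c') (y c)
      rw [dist_comm (z t σ' c') (y c')] at h8
      linarith
    · unfold zx
      rw [if_neg h5]
      linarith

/-- a loop made of two rays and an arc of equipotential -/
noncomputable def lp (Ψ : ℂ → ℂ → ℂ) (z : ℝ → ℝ → ℂ → ℂ) (y : ℂ → ℂ) (bm bp s : ℝ) (τ : ℝ)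
    (c : ℂ) : ℂ :=
  if τ ≤ 1 / 3 then zx z y bm (3 * τ * s) c
  else if τ ≤ 2 / 3 then Ψ c (ex s (bm + (3 * τ - 1) * (bp - bm)))
  else zx z y bp (3 * (1 - τ) * s) c

/-- the data for a loop -/
structure LD (d : ℕ) (Ψ : ℂ → ℂ → ℂ) (c₀ : ℂ) (r : ℝ) (A : Set ℝ) (z : ℝ → ℝ → ℂ → ℂ)
    (y : ℂ → ℂ) (bm bp s : ℝ) : Prop where
  ray : RaySys d Ψ c₀ r A z
  mm : bm ∈ A
  mp : bp ∈ A
  s0 : 0 < s
  hb : bm < bp
  hb1 : bp < bm + 1
  gr : ∀ c ∈ ball c₀ r, green d c 0 < s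
  yd : DifferentiableOn ℂ y (ball c₀ r)
  limm : TendstoUniformlyOn (z bm) y (𝓝[>] 0) (ball c₀ r)
  limp : TendstoUniformlyOn (z bp) y (𝓝[>] 0) (ball c₀ r)

section
variable {d : ℕ} {Ψ : ℂ → ℂ → ℂ} {c₀ : ℂ} {r : ℝ} {A : Set ℝ} {z : ℝ → ℝ → ℂ → ℂ}
  {y : ℂ → ℂ} {bm bp s : ℝ}

theorem LD.left (h : LD d Ψ c₀ r A z y bm bp s) {τ : ℝ} {c : ℂ} (hτ : τ ∈ Ioc (0 : ℝ) (1 / 3)) :
    lp Ψ z y bm bp s τ c = z bm (3 * τ * s) c := by
  unfold lp zx
  have h1 := h.s0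
  have h2 := hτ.1
  rw [if_pos hτ.2, if_pos (by positivity)]

theorem LD.zero : lp Ψ z y bm bp s 0 = y := by
  ext c
  unfold lp zx
  rw [if_pos (by norm_num), if_neg (by norm_num)]

theorem LD.one : lp Ψ z y bm bp s 1 = y := by
  ext c
  unfold lp zx
  rw [if_neg (by norm_num), if_neg (by norm_num), if_neg (by norm_num)]

theorem LD.right (h : LD d Ψ c₀ r A z y bm bp s) {τ : ℝ} {c : ℂ} (hc : c ∈ ball c₀ r)
    (hτ : τ ∈ Ico (2 / 3 : ℝ) 1) :
    lp Ψ z y bm bp s τ c = z bp (3 * (1 - τ) * s) c := by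
  have h1 := h.s0
  have h2 : 0 < 1 - τ := by linarith [hτ.2]
  have h3 : 0 < 3 * (1 - τ) * s := by positivity
  unfold lp zx
  rw [if_neg (by linarith [hτ.1])]
  by_cases h4 : τ ≤ 2 / 3
  · have h5 : τ = 2 / 3 := le_antisymm h4 hτ.1
    rw [if_pos h4, h5]
    have h6 := h.ray.high bp h.mp s h1 c hc (h.gr c hc)
    rw [show (3 * (1 - 2 / 3 : ℝ) * s) = s by ring, h6]
    congr 2
    ring
  · rw [if_neg h4, if_pos h3]

theorem LD.mid (h : LD d Ψ c₀ r A z y bm bp s) {τ : ℝ} {c : ℂ} (hc : c ∈ ball c₀ r)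
    (hτ : τ ∈ Icc (1 / 3 : ℝ) (2 / 3)) :
    lp Ψ z y bm bp s τ c = Ψ c (ex s (bm + (3 * τ - 1) * (bp - bm))) := by
  unfold lp
  by_cases h4 : τ ≤ 1 / 3
  · have h5 : τ = 1 / 3 := le_antisymm h4 hτ.1
    have h6 := h.ray.high bm h.mm s h.s0 c hc (h.gr c hc)
    rw [if_pos h4]
    unfold zx
    rw [h5, show (3 * (1 / 3 : ℝ) * s) = s by ring, if_pos h.s0, h6]
    congr 2
    ring
  · rw [if_neg h4, if_pos hτ.2]

theorem LD.cont (h : LD d Ψ c₀ r A z y bm bp s) (hΨ : Bott d Ψ) :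
    ContinuousOn (fun p : ℝ × ℂ => lp Ψ z y bm bp s p.1 p.2) (Icc 0 1 ×ˢ ball c₀ r) := by
  have hs0 := h.s0
  have hA : IsClosed {p : ℝ × ℂ | p.1 ≤ 1 / 3} := isClosed_le continuous_fst continuous_const
  have hB : IsClosed {p : ℝ × ℂ | 1 / 3 ≤ p.1} := isClosed_le continuous_const continuous_fst
  have hC : IsClosed {p : ℝ × ℂ | p.1 ≤ 2 / 3} := isClosed_le continuous_fst continuous_const
  have hD : IsClosed {p : ℝ × ℂ | 2 / 3 ≤ p.1} := isClosed_le continuous_const continuous_fst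
  apply contOn_cover hA hB
  · intro p _
    rcases le_total p.1 (1 / 3) with h1 | h1
    · exact Or.inl h1
    · exact Or.inr h1
  · have h1 := (zx_cont (h.ray.cont bm h.mm) h.yd.continuousOn h.limm).comp
      (f := fun p : ℝ × ℂ => (3 * p.1 * s, p.2)) (s := Icc 0 1 ×ˢ ball c₀ r ∩ {p | p.1 ≤ 1 / 3})
      (by fun_prop) (by
        rintro ⟨τ, c⟩ ⟨⟨h1, h2⟩, _⟩
        refine ⟨?_, h2⟩
        have := h1.1
        change 0 ≤ 3 * τ * s
        have h3 : 0 ≤ τ := this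
        positivity)
    refine h1.congr ?_
    rintro ⟨τ, c⟩ ⟨_, h2⟩
    change lp Ψ z y bm bp s τ c = zx z y bm (3 * τ * s) c
    have h2' : τ ≤ 1 / 3 := h2
    unfold lp
    rw [if_pos h2']
  · apply contOn_cover hC hD
    · intro p _
      rcases le_total p.1 (2 / 3) with h1 | h1
      · exact Or.inl h1
      · exact Or.inr h1
    · have h1 := hΨ.cont.comp
        (f := fun p : ℝ × ℂ => (p.2, ex s (bm + (3 * p.1 - 1) * (bp - bm))))
        (s := Icc 0 1 ×ˢ ball c₀ r ∩ {p | 1 / 3 ≤ p.1} ∩ {p | p.1 ≤ 2 / 3})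
        (by
          apply Continuous.continuousOn
          have := continuous_ex
          exact continuous_snd.prodMk (this.comp (by fun_prop :
            Continuous fun p : ℝ × ℂ => ((s, bm + (3 * p.1 - 1) * (bp - bm)) : ℝ × ℝ)))) (by
          rintro ⟨τ, c⟩ ⟨⟨⟨h1, h2⟩, _⟩, _⟩
          change green d c 0 < Real.log ‖ex s (bm + (3 * τ - 1) * (bp - bm))‖
          rw [log_norm_ex]
          exact h.gr c h2)
      refine h1.congr ?_
      rintro ⟨τ, c⟩ ⟨⟨⟨_, hc⟩, h1⟩, h2⟩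
      exact h.mid hc ⟨h1, h2⟩
    · have h1 := (zx_cont (h.ray.cont bp h.mp) h.yd.continuousOn h.limp).comp
        (f := fun p : ℝ × ℂ => (3 * (1 - p.1) * s, p.2))
        (s := Icc 0 1 ×ˢ ball c₀ r ∩ {p | 1 / 3 ≤ p.1} ∩ {p | 2 / 3 ≤ p.1})
        (by fun_prop) (by
          rintro ⟨τ, c⟩ ⟨⟨⟨h1, h2⟩, _⟩, _⟩
          refine ⟨?_, h2⟩
          have := h1.2
          change 0 ≤ 3 * (1 - τ) * s
          have h3 : 0 ≤ 1 - τ := by
            have : τ ≤ 1 := h1.2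
            linarith
          positivity)
      refine h1.congr ?_
      rintro ⟨τ, c⟩ ⟨⟨⟨hτ, hc⟩, _⟩, h2⟩
      change lp Ψ z y bm bp s τ c = zx z y bp (3 * (1 - τ) * s) c
      have hτ1 : τ ≤ 1 := hτ.2
      have hτ2 : 2 / 3 ≤ τ := h2
      rcases hτ1.lt_or_eq with h3 | h3
      · rw [h.right hc ⟨hτ2, h3⟩]
        unfold zx
        have : 0 < 1 - τ := by linarith
        rw [if_pos (by positivity)]
      · rw [h3, LD.one]
        unfold zx
        rw [if_neg (by norm_num)]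

theorem LD.diff (h : LD d Ψ c₀ r A z y bm bp s) (hΨ : Bott d Ψ) {τ : ℝ} (hτ : τ ∈ Icc (0 : ℝ) 1) :
    DifferentiableOn ℂ (lp Ψ z y bm bp s τ) (ball c₀ r) := by
  have hs0 := h.s0
  rcases hτ.1.eq_or_lt with h0 | h0
  · rw [← h0, LD.zero]
    exact h.yd
  rcases hτ.2.eq_or_lt with h1 | h1
  · rw [h1, LD.one]
    exact h.yd
  rcases le_or_gt τ (1 / 3) with h2 | h2
  · refine (h.ray.diff bm h.mm (3 * τ * s) (by positivity)).congr ?_
    intro c _
    exact h.left ⟨h0, h2⟩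
  rcases le_or_gt τ (2 / 3) with h3 | h3
  · refine ((hΨ.diffc (ex s (bm + (3 * τ - 1) * (bp - bm)))).mono ?_).congr
      (fun c hc => h.mid hc ⟨h2.le, h3⟩)
    intro c hc
    change green d c 0 < _
    rw [log_norm_ex]
    exact h.gr c hc
  · have : 0 < 1 - τ := by linarith
    exact (h.ray.diff bp h.mp (3 * (1 - τ) * s) (by positivity)).congr
      (fun c hc => h.right hc ⟨h3.le, h1⟩)

/-- the landing point has potential `0` -/
theorem LD.gy (h : LD d Ψ c₀ r A z y bm bp s) (hd : 2 ≤ d) (hCG : S_CG) {c : ℂ}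
    (hc : c ∈ ball c₀ r) : green d c (y c) = 0 := by
  have hcont := (hCG d hd).1
  have h1 : Tendsto (fun σ => z bm σ c) (𝓝[>] 0) (𝓝 (y c)) := h.limm.tendsto_at hc
  have h2 : Tendsto (fun σ => green d c (z bm σ c)) (𝓝[>] 0) (𝓝 (green d c (y c))) := by
    have h3 : Continuous fun v : ℂ => green d c v :=
      Continuous.comp (g := fun p : ℂ × ℂ => green d p.1 p.2) (f := fun v : ℂ => (c, v)) hcont
        (by fun_prop)
    exact (h3.tendsto (y c)).comp h1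
  have h4 : Tendsto (fun σ : ℝ => σ) (𝓝[>] 0) (𝓝 (0 : ℝ)) := tendsto_id.mono_left nhdsWithin_le_nhds
  refine tendsto_nhds_unique h2 (h4.congr' ?_)
  filter_upwards [self_mem_nhdsWithin] with σ hσ
  exact (h.ray.pot bm h.mm σ hσ c hc).symm

theorem LD.low (h : LD d Ψ c₀ r A z y bm bp s) (hd : 2 ≤ d) (hΨ : Bott d Ψ) {c v : ℂ}
    (hv : green d c v ≤ green d c 0) : v ∉ Ψ c '' Dom (green d c 0) := by
  rintro ⟨w, hw, rfl⟩
  rw [hΨ.pot c w hw] at hv
  exact absurd hw (not_lt.2 hv)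

theorem LD.sect (h : LD d Ψ c₀ r A z y bm bp s) (hd : 2 ≤ d) (hΨ : Bott d Ψ) (hCG : S_CG)
    {c : ℂ} (hc : c ∈ ball c₀ r) :
    SectLoop (Ψ c) (green d c 0) bm bp s (fun τ => lp Ψ z y bm bp s τ c) := by
  have hs0 := h.s0
  have hg0 : 0 ≤ green d c 0 := Pool.Agent.H713R2.AR.green_nonneg hd c 0
  refine ⟨?_, ?_, hg0, h.gr c hc, h.hb, h.hb1, ?_, fun τ hτ => h.mid hc hτ, ?_, ?_, ?_⟩
  · exact (h.cont hΨ).comp (f := fun τ : ℝ => (τ, c)) (by fun_prop) (fun τ hτ => ⟨hτ, hc⟩)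
  · change lp Ψ z y bm bp s 0 c = lp Ψ z y bm bp s 1 c
    rw [LD.zero, LD.one]
  · intro τ hτ h1
    have h2 : 0 < τ := by
      by_contra h3
      have : τ = 0 := le_antisymm (not_lt.1 h3) hτ.1
      rw [this] at h1
      simp at h1
      linarith
    change lp Ψ z y bm bp s τ c = _
    rw [h.left ⟨h2, hτ.2⟩]
    exact h.ray.high bm h.mm _ (by positivity) c hc h1
  · intro τ hτ h1
    have h2 : τ < 1 := by
      by_contra h3
      have : τ = 1 := le_antisymm hτ.2 (not_lt.1 h3)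
      rw [this] at h1
      simp at h1
      linarith
    have h3 : 0 < 1 - τ := by linarith
    change lp Ψ z y bm bp s τ c = _
    rw [h.right hc ⟨hτ.1, h2⟩]
    exact h.ray.high bp h.mp _ (by positivity) c hc h1
  · intro τ hτ h1
    apply h.low hd hΨ
    change green d c (lp Ψ z y bm bp s τ c) ≤ _
    rcases hτ.1.eq_or_lt with h2 | h2
    · rw [← h2, LD.zero, h.gy hd hCG hc]
      exact hg0
    · rw [h.left ⟨h2, hτ.2⟩, h.ray.pot bm h.mm _ (by positivity) c hc]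
      exact h1
  · intro τ hτ h1
    apply h.low hd hΨ
    change green d c (lp Ψ z y bm bp s τ c) ≤ _
    rcases hτ.2.eq_or_lt with h2 | h2
    · rw [h2, LD.one, h.gy hd hCG hc]
      exact hg0
    · have h3 : 0 < 1 - τ := by linarith
      rw [h.right hc ⟨hτ.1, h2⟩, h.ray.pot bp h.mp _ (by positivity) c hc]
      exact h1

end

end Pool.Agent.Y298.LC
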