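import Mathlib
import Pool.Agent.Y298.LC.Loop

/-!
# Project LC: the macroscopic loops at a typical parameter
-/

set_option autoImplicit false

open Set Filter Metric MeasureTheory Topology Complex Bornology

namespace Pool.Agent.Y298.LC

open Pool.Agent.H712R2 (P fc)
open Pool.Agent.H713R2 (IsExteriorMap)
open Pool.Agent.H713R2.AR (green)
open N62a1eb23 (multibrotSet)

theorem RaySys.mono {d : ℕ} {Ψ : ℂ → ℂ → ℂ} {c₀ : ℂ} {r r' : ℝ} {A : Set ℝ}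
    {z : ℝ → ℝ → ℂ → ℂ} (hz : RaySys d Ψ c₀ r A z) (hr : r' ≤ r) : RaySys d Ψ c₀ r' A z := by
  have hsub : ball c₀ r' ⊆ ball c₀ r := ball_subset_ball hr
  exact ⟨fun t ht σ hσ => (hz.diff t ht σ hσ).mono hsub,
      fun t ht => (hz.cont t ht).mono (prod_mono subset_rfl hsub),
      fun t ht σ hσ c hc => hz.conj t ht σ hσ c (hsub hc),
      fun t ht σ hσ c hc => hz.pot t ht σ hσ c (hsub hc),
      fun t ht σ hσ c hc => hz.high t ht σ hσ c (hsub hc),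
      fun t ht j hj σ hσ c hc => hz.rot t ht j hj σ hσ c (hsub hc)⟩

section
variable {d : ℕ} {Ψ : ℂ → ℂ → ℂ} {c₀ : ℂ} {r : ℝ} {A : Set ℝ} {z : ℝ → ℝ → ℂ → ℂ}
  {y : ℂ → ℂ} {bm bp s : ℝ}

theorem LD.mono (h : LD d Ψ c₀ r A z y bm bp s) {r' : ℝ} (hr : r' ≤ r) :
    LD d Ψ c₀ r' A z y bm bp s := by
  have hsub : ball c₀ r' ⊆ ball c₀ r := ball_subset_ball hr
  exact ⟨h.ray.mono hr, h.mm, h.mp, h.s0, h.hb, h.hb1, fun c hc => h.gr c (hsub hc),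
    h.yd.mono hsub, h.limm.mono hsub, h.limp.mono hsub⟩

theorem Land.ld {tm tp : ℝ} {N : ℕ} {Y : ℕ → ℂ → ℂ} {R : ℝ} (L : Land d Ψ c₀ tm tp N R A z Y)
    (hd : 2 ≤ d) (hr : r ≤ R) {j : ℕ} (hj : j ≤ N) (hj1 : 1 ≤ j) (hs : 0 < s) (htm : tm < 0)
    (htp : 0 < tp) (htmp : tp - tm < 1)
    (hg : ∀ c ∈ ball c₀ r, green d c 0 < s) :
    LD d Ψ c₀ r A z (Y j) (tm / d ^ j) (tp / d ^ j) s := by
  have hsub : ball c₀ r ⊆ ball c₀ R := ball_subset_ball hr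
  have hdR : (2 : ℝ) ≤ d := by exact_mod_cast hd
  have hp : (1 : ℝ) ≤ (d : ℝ) ^ j := one_le_pow₀ (by linarith)
  have hp0 : (0 : ℝ) < (d : ℝ) ^ j := by linarith
  refine ⟨L.ray.mono hr, L.memm j hj, L.memp j hj, hs, ?_, ?_, hg, (L.ydiff j hj).mono hsub,
    (L.limm j hj).mono hsub, (L.limp j hj).mono hsub⟩
  · exact div_lt_div_of_pos_right (by linarith) hp0
  · rw [← sub_lt_iff_lt_add', ← sub_div, div_lt_iff₀ hp0]
    linarith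

/-- the set enclosed by the loop -/
def Wset (γ : ℝ → ℂ → ℂ) (c : ℂ) : Set ℂ := {v | v ∉ im (fun τ => γ τ c) ∧ Enc (fun τ => γ τ c) v}

theorem im_compact {γ : ℝ → ℂ} (hc : ContinuousOn γ (Icc 0 1)) : IsCompact (im γ) :=
  isCompact_Icc.image_of_continuousOn hc

theorem top_open (hT : S_TOP) {γ : ℝ → ℂ} (hc : ContinuousOn γ (Icc 0 1)) (h01 : γ 0 = γ 1) :
    IsOpen {v | v ∉ im γ ∧ Enc γ v} := by
  rw [Metric.isOpen_iff]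
  rintro v ⟨hv, hE⟩
  have ho : IsOpen (im γ)ᶜ := (im_compact hc).isClosed.isOpen_compl
  obtain ⟨ε, hε, hb⟩ := Metric.isOpen_iff.1 ho v hv
  refine ⟨ε, hε, fun v' hv' => ⟨hb hv', ?_⟩⟩
  exact hT.1 γ (ball v ε) hc h01 (convex_ball v ε).isPreconnected
    (disjoint_left.2 fun x hx hx' => hb hx hx') v (mem_ball_self hε) v' hv' hE

theorem LD.enc (h : LD d Ψ c₀ r A z y bm bp s) (hd : 2 ≤ d) (hΨ : Bott d Ψ) (hCG : S_CG)
    (hS : S_SECT) {c : ℂ} (hc : c ∈ ball c₀ r) :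
    (∀ σ t : ℝ, green d c 0 < σ → σ < s → t ∈ Ioo bm bp →
      Ψ c (ex σ t) ∈ Wset (lp Ψ z y bm bp s) c) ∧
    (∀ σ t : ℝ, green d c 0 < σ → (s < σ ∨ ∀ n : ℤ, t + n ∉ Icc bm bp) →
      Ψ c (ex σ t) ∉ im (fun τ => lp Ψ z y bm bp s τ c) ∧
        ¬ Enc (fun τ => lp Ψ z y bm bp s τ c) (Ψ c (ex σ t))) := by
  have h1 := hS (Ψ c) (green d c 0) bm bp s (fun τ => lp Ψ z y bm bp s τ c) (hΨ.diffw c)
    (hΨ.inj c) (hΨ.infty c) (h.sect hd hΨ hCG hc)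
  exact ⟨h1.1, h1.2⟩

theorem LD.mem_mid (h : LD d Ψ c₀ r A z y bm bp s) {c : ℂ} (hc : c ∈ ball c₀ r) {t : ℝ} {n : ℤ}
    (ht : t + n ∈ Icc bm bp) : ∃ τ ∈ Icc (0 : ℝ) 1, lp Ψ z y bm bp s τ c = Ψ c (ex s t) := by
  have hb : 0 < bp - bm := sub_pos.2 h.hb
  have h1 : 0 ≤ (t + n - bm) / (bp - bm) := div_nonneg (by linarith [ht.1]) hb.le
  have h2 : (t + n - bm) / (bp - bm) ≤ 1 := by
    rw [div_le_one hb]
    linarith [ht.2]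
  refine ⟨(1 + (t + n - bm) / (bp - bm)) / 3, ⟨by linarith, by linarith⟩, ?_⟩
  rw [h.mid hc ⟨by linarith, by linarith⟩]
  congr 1
  have h3 : bm + (3 * ((1 + (t + n - bm) / (bp - bm)) / 3) - 1) * (bp - bm) = t + n := by
    field_simp
    ring
  rw [h3, ex_add_int]

theorem LD.Wopen (h : LD d Ψ c₀ r A z y bm bp s) (hd : 2 ≤ d) (hΨ : Bott d Ψ) (hCG : S_CG)
    (hT : S_TOP) {c : ℂ} (hc : c ∈ ball c₀ r) : IsOpen (Wset (lp Ψ z y bm bp s) c) :=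
  top_open hT (h.sect hd hΨ hCG hc).cont (h.sect hd hΨ hCG hc).closed

theorem LD.Wg (h : LD d Ψ c₀ r A z y bm bp s) (hd : 2 ≤ d) (hΨ : Bott d Ψ) (hCG : S_CG)
    (hS : S_SECT) {c : ℂ} (hc : c ∈ ball c₀ r) {v : ℂ} (hv : v ∈ Wset (lp Ψ z y bm bp s) c) :
    green d c v < s := by
  by_contra h1
  rw [not_lt] at h1
  obtain ⟨w, hw, rfl⟩ := hΨ.surj c v (lt_of_lt_of_le (h.gr c hc) h1)
  rw [hΨ.pot c w hw] at h1
  have hw0 : w ≠ 0 := by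
    rintro rfl
    rw [norm_zero, Real.log_zero] at h1
    linarith [h.s0]
  obtain ⟨t, ht⟩ := exists_ex hw0
  have hσ : green d c 0 < Real.log ‖w‖ := hw
  rcases h1.lt_or_eq with h2 | h2
  · have h3 := (h.enc hd hΨ hCG hS hc).2 (Real.log ‖w‖) t hσ (Or.inl h2)
    rw [← ht] at h3
    exact h3.2 hv.2
  · by_cases h4 : ∃ n : ℤ, t + n ∈ Icc bm bp
    · obtain ⟨n, hn⟩ := h4
      obtain ⟨τ, hτ, hτ1⟩ := h.mem_mid hc hn
      apply hv.1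
      refine ⟨τ, hτ, ?_⟩
      change lp Ψ z y bm bp s τ c = _
      rw [hτ1]
      congr 1
      rw [h2]
      exact ht.symm
    · rw [not_exists] at h4
      have h3 := (h.enc hd hΨ hCG hS hc).2 (Real.log ‖w‖) t hσ (Or.inr h4)
      rw [← ht] at h3
      exact h3.2 hv.2

theorem LD.Wout (h : LD d Ψ c₀ r A z y bm bp s) (hd : 2 ≤ d) (hΨ : Bott d Ψ) (hCG : S_CG)
    (hS : S_SECT) {c : ℂ} (hc : c ∈ ball c₀ r) {σ t : ℝ} (hσ : green d c 0 < σ)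
    (hv : Ψ c (ex σ t) ∈ Wset (lp Ψ z y bm bp s) c) : ∃ j : ℤ, t + j ∈ Ioo bm bp := by
  have hs0 := h.s0
  have hg0 : 0 ≤ green d c 0 := Pool.Agent.H713R2.AR.green_nonneg hd c 0
  have h1 := h.Wg hd hΨ hCG hS hc hv
  rw [hΨ.pot c _ (ex_mem.2 hσ), log_norm_ex] at h1
  have h2 : ∃ n : ℤ, t + n ∈ Icc bm bp := by
    by_contra h2
    rw [not_exists] at h2
    exact ((h.enc hd hΨ hCG hS hc).2 σ t hσ (Or.inr h2)).2 hv.2
  obtain ⟨n, hn⟩ := h2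
  refine ⟨n, ?_⟩
  have hS' := h.sect hd hΨ hCG hc
  have h3 : 0 < σ := by linarith
  refine ⟨lt_of_le_of_ne hn.1 ?_, lt_of_le_of_ne hn.2 ?_⟩
  · intro h4
    apply hv.1
    refine ⟨σ / s / 3, ⟨by positivity, ?_⟩, ?_⟩
    · have : σ / s ≤ 1 := by rw [div_le_one hs0]; exact h1.le
      linarith
    · have h5 : 3 * (σ / s / 3) * s = σ := by field_simp
      have h6 := hS'.left (σ / s / 3) ⟨by positivity, by
        have : σ / s ≤ 1 := by rw [div_le_one hs0]; exact h1.le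
        linarith⟩ (by rw [h5]; exact hσ)
      rw [h5] at h6
      change lp Ψ z y bm bp s (σ / s / 3) c = _
      rw [h6, h4, ex_add_int]
  · intro h4
    apply hv.1
    have h7 : σ / s ≤ 1 := by rw [div_le_one hs0]; exact h1.le
    have h8 : 0 < σ / s := by positivity
    refine ⟨1 - σ / s / 3, ⟨by linarith, by linarith⟩, ?_⟩
    · have h5 : 3 * (1 - (1 - σ / s / 3)) * s = σ := by field_simp; ring
      have h6 := hS'.right (1 - σ / s / 3) ⟨by linarith, by linarith⟩ (by rw [h5]; exact hσ)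
      rw [h5] at h6
      change lp Ψ z y bm bp s (1 - σ / s / 3) c = _
      rw [h6, ← h4, ex_add_int]

theorem LD.unif (h : LD d Ψ c₀ r A z y bm bp s) (hΨ : Bott d Ψ) (hr : 0 < r) {δ : ℝ}
    (hδ : 0 < δ) : ∃ r' : ℝ, 0 < r' ∧ r' ≤ r ∧ ∀ c ∈ ball c₀ r', ∀ c' ∈ ball c₀ r',
      ∀ τ ∈ Icc (0 : ℝ) 1, ‖lp Ψ z y bm bp s τ c - lp Ψ z y bm bp s τ c'‖ < δ := by
  have hK : IsCompact (Icc (0 : ℝ) 1 ×ˢ closedBall c₀ (r / 2)) :=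
    isCompact_Icc.prod (isCompact_closedBall _ _)
  have h1 := hK.uniformContinuousOn_of_continuous ((h.cont hΨ).mono
    (prod_mono subset_rfl (closedBall_subset_ball (by linarith : r / 2 < r))))
  obtain ⟨δ', hδ', h2⟩ := Metric.uniformContinuousOn_iff.1 h1 δ hδ
  refine ⟨min (r / 2) (δ' / 2), lt_min (by linarith) (by linarith),
    (min_le_left _ _).trans (by linarith), fun c hc c' hc' τ hτ => ?_⟩
  rw [mem_ball, lt_min_iff] at hc hc'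
  have h3 := h2 (τ, c) ⟨hτ, mem_closedBall.2 hc.1.le⟩ (τ, c') ⟨hτ, mem_closedBall.2 hc'.1.le⟩ (by
    rw [Prod.dist_eq, dist_self, max_eq_right dist_nonneg]
    have := dist_triangle c c₀ c'
    rw [dist_comm c₀ c'] at this
    linarith [hc.2, hc'.2])
  rw [dist_eq_norm] at h3
  exact h3

/-- the closed set bounded by the loop -/
def Kset (γ : ℝ → ℂ → ℂ) (c : ℂ) : Set ℂ := {v | v ∈ im (fun τ => γ τ c) ∨ Enc (fun τ => γ τ c) v}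

theorem LD.near (h : LD d Ψ c₀ r A z y bm bp s) (hd : 2 ≤ d) (hΨ : Bott d Ψ) (hCG : S_CG)
    (hS : S_SECT) (hT : S_TOP) (hr : 0 < r) {δ : ℝ}
    (hδ : ∀ c ∈ ball c₀ r, ∀ τ ∈ Icc (0 : ℝ) 1,
      ‖lp Ψ z y bm bp s τ c - lp Ψ z y bm bp s τ c₀‖ < δ) {c : ℂ} (hc : c ∈ ball c₀ r) {σ t : ℝ}
    (hσ : green d c 0 < σ) (hσs : σ ≤ s) (ht : t ∈ Ioo bm bp) :
    ∃ x ∈ Kset (lp Ψ z y bm bp s) c₀, dist (Ψ c (ex σ t)) x < δ := by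
  have hc0 : c₀ ∈ ball c₀ r := mem_ball_self hr
  rcases hσs.lt_or_eq with h1 | h1
  · by_cases h2 : ∃ τ ∈ Icc (0 : ℝ) 1, ‖lp Ψ z y bm bp s τ c₀ - Ψ c (ex σ t)‖ < δ
    · obtain ⟨τ, hτ, h3⟩ := h2
      refine ⟨lp Ψ z y bm bp s τ c₀, Or.inl ⟨τ, hτ, rfl⟩, ?_⟩
      rw [dist_comm, dist_eq_norm]
      exact h3
    · push Not at h2
      have hE := ((h.enc hd hΨ hCG hS hc).1 σ t hσ h1 ht).2
      have h0' := h.sect hd hΨ hCG hc0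
      have h1' := h.sect hd hΨ hCG hc
      have h3 := hT.2.2 (fun τ => lp Ψ z y bm bp s τ c₀) (fun τ => lp Ψ z y bm bp s τ c)
        (Ψ c (ex σ t)) h0'.cont h1'.cont h0'.closed h1'.closed (by
          intro τ hτ
          have h4 := hδ c hc τ hτ
          rw [norm_sub_rev] at h4
          exact lt_of_lt_of_le h4 (h2 τ hτ))
      have hδ0 : 0 < δ := lt_of_le_of_lt (norm_nonneg _) (hδ c hc 0 ⟨le_rfl, zero_le_one⟩)
      exact ⟨Ψ c (ex σ t), Or.inr (h3.2 hE), by rw [dist_self]; exact hδ0⟩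
  · obtain ⟨τ, hτ, h2⟩ := h.mem_mid hc (t := t) (n := 0) (by simpa using ⟨ht.1.le, ht.2.le⟩)
    refine ⟨lp Ψ z y bm bp s τ c₀, Or.inl ⟨τ, hτ, rfl⟩, ?_⟩
    rw [h1, ← h2, dist_eq_norm]
    exact hδ c hc τ hτ

theorem LD.nest {y' : ℂ → ℂ} {bm' bp' s' : ℝ} (h : LD d Ψ c₀ r A z y bm bp s)
    (h' : LD d Ψ c₀ r A z y' bm' bp' s') (hd : 2 ≤ d) (hΨ : Bott d Ψ) (hCG : S_CG)
    (hN : S_NEST) (hr : 0 < r) (hg : green d c₀ 0 = 0) (hbm : bm' < bm) (hbp : bp < bp')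
    (hs : s < s') (hy : y c₀ ≠ y' c₀) :
    IsCompact (Kset (lp Ψ z y bm bp s) c₀) ∧ IsPreconnected (Kset (lp Ψ z y bm bp s) c₀) ∧
      ∀ v ∈ Kset (lp Ψ z y bm bp s) c₀, v ∈ Wset (lp Ψ z y' bm' bp' s') c₀ := by
  have hc0 : c₀ ∈ ball c₀ r := mem_ball_self hr
  have h1 := h.sect hd hΨ hCG hc0
  have h2 := h'.sect hd hΨ hCG hc0
  have h3 := hΨ.diffw c₀
  have h4 := hΨ.inj c₀
  rw [hg] at h1 h2 h3 h4
  exact hN (Ψ c₀) bm bp s bm' bp' s' _ _ h3 h4 (hΨ.infty c₀) h1 h2 hbm hbp hs (by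
    change lp Ψ z y bm bp s 0 c₀ ≠ lp Ψ z y' bm' bp' s' 0 c₀
    rw [LD.zero, LD.zero]
    exact hy)

theorem sep {K M : Set ℂ} (hK : IsCompact K) (hM : IsCompact M) (hKM : Disjoint K M) :
    ∃ δ : ℝ, 0 < δ ∧ ∀ x ∈ K, ∀ v ∈ M, δ ≤ dist x v := by
  obtain ⟨δ, hδ, h1⟩ := hKM.exists_cthickenings hK hM.isClosed
  refine ⟨δ, hδ, fun x hx v hv => ?_⟩
  by_contra h2
  rw [not_le] at h2
  exact disjoint_left.1 h1 (mem_cthickening_of_dist_le v x δ K hx (by rw [dist_comm]; exact h2.le))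
    (self_subset_cthickening M hv)

theorem precon_cthickening {K : Set ℂ} (hK : IsCompact K) (hP : IsPreconnected K) {δ : ℝ}
    (hδ : 0 ≤ δ) : IsPreconnected (cthickening δ K) := by
  have h1 : cthickening δ K = (fun p : ℂ × ℂ => p.1 + p.2) '' (K ×ˢ closedBall 0 δ) := by
    rw [hK.cthickening_eq_biUnion_closedBall hδ]
    ext v
    simp only [mem_iUnion, mem_image, mem_prod, Prod.exists, exists_prop]
    constructor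
    · rintro ⟨x, hx, hv⟩
      refine ⟨x, v - x, ⟨hx, ?_⟩, by ring⟩
      rw [mem_closedBall, dist_zero_right]
      rwa [mem_closedBall, dist_eq_norm] at hv
    · rintro ⟨a, b, ⟨ha, hb⟩, rfl⟩
      refine ⟨a, ha, ?_⟩
      rw [mem_closedBall, dist_eq_norm, add_sub_cancel_left]
      rwa [mem_closedBall, dist_zero_right] at hb
  rw [h1]
  exact (hP.prod (convex_closedBall 0 δ).isPreconnected).image _ (by fun_prop)

end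

/-- the macroscopic data -/
structure Mac (d : ℕ) (Ψ : ℂ → ℂ → ℂ) (c₀ : ℂ) (tm tp : ℝ) (k : ℕ) (r δ : ℝ) (A : Set ℝ)
    (z : ℝ → ℝ → ℂ → ℂ) (γ : ℝ → ℂ → ℂ) (KK : Set ℂ) (W : ℂ → Set ℂ) : Prop where
  r0 : 0 < r
  δ0 : 0 < δ
  ray : RaySys d Ψ c₀ r A z
  clos : ∀ t ∈ A, (d : ℝ) * t ∈ A
  memm : tm / d ^ (k + 2) ∈ A
  memp : tp / d ^ (k + 2) ∈ A
  gr : ∀ c ∈ ball c₀ r, green d c 0 < 1 / 8
  cont : ContinuousOn (fun p : ℝ × ℂ => γ p.1 p.2) (Icc 0 1 ×ˢ ball c₀ r)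
  diff : ∀ τ ∈ Icc (0 : ℝ) 1, DifferentiableOn ℂ (γ τ) (ball c₀ r)
  g01 : ∀ c, γ 0 c = γ 1 c
  gy : ∀ c ∈ ball c₀ r, green d c (γ 0 c) = 0
  left : ∀ c ∈ ball c₀ r, ∀ τ ∈ Ioc (0 : ℝ) (1 / 3), γ τ c = z (tm / d ^ (k + 2)) (3 * τ * (1 / 2)) c
  mid : ∀ c ∈ ball c₀ r, ∀ τ ∈ Icc (1 / 3 : ℝ) (2 / 3),
    γ τ c = Ψ c (ex (1 / 2) (tm / d ^ (k + 2) + (3 * τ - 1) * (tp / d ^ (k + 2) - tm / d ^ (k + 2))))
  right : ∀ c ∈ ball c₀ r, ∀ τ ∈ Ico (2 / 3 : ℝ) 1,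
    γ τ c = z (tp / d ^ (k + 2)) (3 * (1 - τ) * (1 / 2)) c
  unif : ∀ ε : ℝ, 0 < ε → ∃ r' : ℝ, 0 < r' ∧ r' ≤ r ∧ ∀ c ∈ ball c₀ r', ∀ c' ∈ ball c₀ r',
      ∀ τ ∈ Icc (0 : ℝ) 1, ‖γ τ c - γ τ c'‖ < ε
  Wopen : ∀ c ∈ ball c₀ r, IsOpen (W c)
  Wg : ∀ c ∈ ball c₀ r, ∀ v ∈ W c, green d c v < 1
  Wout : ∀ c ∈ ball c₀ r, ∀ σ t : ℝ, green d c 0 < σ → Ψ c (ex σ t) ∈ W c →
    ∃ j : ℤ, t + j ∈ Ioo (tm / d ^ (k + 1)) (tp / d ^ (k + 1))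
  Win : ∀ c ∈ ball c₀ r, ∀ σ t : ℝ, green d c 0 < σ → σ < 1 →
    t ∈ Ioo (tm / d ^ (k + 1)) (tp / d ^ (k + 1)) → Ψ c (ex σ t) ∈ W c
  KKc : IsCompact KK
  KKp : IsPreconnected KK
  KKW : ∀ c ∈ ball c₀ r, thickening δ KK ⊆ W c
  KKγ : ∀ c ∈ ball c₀ r, ∀ τ ∈ Icc (0 : ℝ) 1, ball (γ τ c) δ ⊆ KK
  Q1 : ∀ c ∈ ball c₀ r, ∀ σ t : ℝ, green d c 0 < σ → σ ≤ 1 / 2 →
    t ∈ Ioo (tm / d ^ (k + 2)) (tp / d ^ (k + 2)) → ball (Ψ c (ex σ t)) δ ⊆ KK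
  Q3 : ∀ c ∈ ball c₀ r, ∀ c' ∈ ball c₀ r, ∀ σ t : ℝ, green d c 0 < σ → σ ≤ 1 / 4 →
    t ∈ Ioo (tm / d ^ (k + 3)) (tp / d ^ (k + 3)) → ∀ τ ∈ Icc (0 : ℝ) 1,
      3 * δ ≤ ‖γ τ c' - Ψ c (ex σ t)‖

theorem Hyp.mac {d : ℕ} {ψ : ℂ → ℂ} {c₀ : ℂ} {θ : ℝ} (h : Hyp d ψ c₀ θ) {Ψ : ℂ → ℂ → ℂ}
    (hΨ : Bott d Ψ) (hCG : S_CG) (hS : S_SECT) (hT : S_TOP) (hN : S_NEST) {tm tp : ℝ}
    (h1 : θ - 1 < tm) (h2 : tm < 0) (h3 : 0 < tp) (h4 : tp < θ)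
    (hl : ∀ N : ℕ, ∃ (r : ℝ) (A : Set ℝ) (z : ℝ → ℝ → ℂ → ℂ) (y : ℕ → ℂ → ℂ),
        Land d Ψ c₀ tm tp N r A z y) (k : ℕ) :
    ∃ (r δ : ℝ) (A : Set ℝ) (z : ℝ → ℝ → ℂ → ℂ) (γ : ℝ → ℂ → ℂ) (KK : Set ℂ) (W : ℂ → Set ℂ),
      Mac d Ψ c₀ tm tp k r δ A z γ KK W := by
  have hd := h.hd
  have hdR : (2 : ℝ) ≤ d := by exact_mod_cast hd
  obtain ⟨R, A, z, Y, L⟩ := hl (k + 4)
  have hg0 : green d c₀ 0 = 0 := ((hCG d hd).2.2.1 c₀).1 h.mem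
  -- the radius for the Green function
  have hgc : Continuous fun c : ℂ => green d c 0 :=
    Continuous.comp (g := fun p : ℂ × ℂ => green d p.1 p.2) (f := fun c : ℂ => (c, (0 : ℂ)))
      (hCG d hd).1 (by fun_prop)
  obtain ⟨r₁, hr₁, hg1⟩ : ∃ r₁ : ℝ, 0 < r₁ ∧ ∀ c ∈ ball c₀ r₁, green d c 0 < 1 / 8 := by
    have h5 : {c | green d c 0 < 1 / 8} ∈ 𝓝 c₀ := by
      apply (isOpen_lt hgc continuous_const).mem_nhds
      change green d c₀ 0 < 1 / 8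
      rw [hg0]
      norm_num
    obtain ⟨ε, hε, h6⟩ := Metric.mem_nhds_iff.1 h5
    exact ⟨ε, hε, fun c hc => h6 hc⟩
  obtain ⟨r₂, hr₂, hr21, hr2R⟩ : ∃ r₂ : ℝ, 0 < r₂ ∧ r₂ ≤ r₁ ∧ r₂ ≤ R :=
    ⟨min r₁ R, lt_min hr₁ L.r0, min_le_left _ _, min_le_right _ _⟩
  have hgr : ∀ c ∈ ball c₀ r₂, green d c 0 < 1 / 8 := fun c hc => hg1 c (ball_subset_ball hr21 hc)
  have htmp : tp - tm < 1 := by linarith
  have l0 : LD d Ψ c₀ r₂ A z (Y (k + 1)) (tm / d ^ (k + 1)) (tp / d ^ (k + 1)) 1 :=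
    L.ld hd hr2R (by omega) (by omega) one_pos h2 h3 htmp
      (fun c hc => lt_trans (hgr c hc) (by norm_num))
  have l1 : LD d Ψ c₀ r₂ A z (Y (k + 2)) (tm / d ^ (k + 2)) (tp / d ^ (k + 2)) (1 / 2) :=
    L.ld hd hr2R (by omega) (by omega) (by norm_num) h2 h3 htmp
      (fun c hc => lt_trans (hgr c hc) (by norm_num))
  have l2 : LD d Ψ c₀ r₂ A z (Y (k + 3)) (tm / d ^ (k + 3)) (tp / d ^ (k + 3)) (1 / 4) :=
    L.ld hd hr2R (by omega) (by omega) (by norm_num) h2 h3 htmp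
      (fun c hc => lt_trans (hgr c hc) (by norm_num))
  have hmm : ∀ j : ℕ, tm / (d : ℝ) ^ j < tm / (d : ℝ) ^ (j + 1) := by
    intro j
    have hp0 : (0 : ℝ) < (d : ℝ) ^ j := by positivity
    rw [pow_succ, ← div_div, lt_div_iff₀ (by linarith)]
    have : tm / (d : ℝ) ^ j < 0 := div_neg_of_neg_of_pos h2 hp0
    nlinarith
  have hpp : ∀ j : ℕ, tp / (d : ℝ) ^ (j + 1) < tp / (d : ℝ) ^ j := by
    intro j
    have hp0 : (0 : ℝ) < (d : ℝ) ^ j := by positivity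
    rw [pow_succ, ← div_div, div_lt_iff₀ (by linarith)]
    have : 0 < tp / (d : ℝ) ^ j := by positivity
    nlinarith
  obtain ⟨n1c, n1p, n1w⟩ := l1.nest l0 hd hΨ hCG hN hr₂ hg0 (hmm (k + 1)) (hpp (k + 1))
    (by norm_num) (L.yne (k + 1) (by omega)).symm
  obtain ⟨n2c, n2p, n2w⟩ := l2.nest l1 hd hΨ hCG hN hr₂ hg0 (hmm (k + 2)) (hpp (k + 2))
    (by norm_num) (L.yne (k + 2) (by omega)).symm
  have hc02 : c₀ ∈ ball c₀ r₂ := mem_ball_self hr₂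
  obtain ⟨δa, hδa, ha⟩ := sep n1c (im_compact (l0.sect hd hΨ hCG hc02).cont)
    (disjoint_left.2 fun x hx hx' => (n1w x hx).1 hx')
  obtain ⟨δb, hδb, hb⟩ := sep n2c (im_compact (l1.sect hd hΨ hCG hc02).cont)
    (disjoint_left.2 fun x hx hx' => (n2w x hx).1 hx')
  obtain ⟨δ, hδ, hδ1, hδ2⟩ : ∃ δ : ℝ, 0 < δ ∧ 8 * δ ≤ δa ∧ 8 * δ ≤ δb :=
    ⟨min δa δb / 8, by have := lt_min hδa hδb; linarith, by
      have := min_le_left δa δb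
      linarith, by
      have := min_le_right δa δb
      linarith⟩
  obtain ⟨e0, he0, he0r, hu0⟩ := l0.unif hΨ hr₂ hδ
  obtain ⟨e1, he1, he1r, hu1⟩ := l1.unif hΨ hr₂ hδ
  obtain ⟨e2, he2, he2r, hu2⟩ := l2.unif hΨ hr₂ hδ
  obtain ⟨r, hr, hre0, hre1, hre2⟩ : ∃ r : ℝ, 0 < r ∧ r ≤ e0 ∧ r ≤ e1 ∧ r ≤ e2 :=
    ⟨min e0 (min e1 e2), lt_min he0 (lt_min he1 he2), min_le_left _ _,
      (min_le_right _ _).trans (min_le_left _ _), (min_le_right _ _).trans (min_le_right _ _)⟩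
  have hrr : r ≤ r₂ := hre0.trans he0r
  have hsub : ball c₀ r ⊆ ball c₀ r₂ := ball_subset_ball hrr
  have hc0 : c₀ ∈ ball c₀ r := mem_ball_self hr
  have m0 := l0.mono hrr
  have m1 := l1.mono hrr
  have m2 := l2.mono hrr
  have hv0 : ∀ c ∈ ball c₀ r, ∀ τ ∈ Icc (0 : ℝ) 1,
      ‖lp Ψ z (Y (k + 1)) (tm / d ^ (k + 1)) (tp / d ^ (k + 1)) 1 τ c -
        lp Ψ z (Y (k + 1)) (tm / d ^ (k + 1)) (tp / d ^ (k + 1)) 1 τ c₀‖ < δ := fun c hc τ hτ =>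
    hu0 c (ball_subset_ball hre0 hc) c₀ (mem_ball_self he0) τ hτ
  have hv1 : ∀ c ∈ ball c₀ r, ∀ τ ∈ Icc (0 : ℝ) 1,
      ‖lp Ψ z (Y (k + 2)) (tm / d ^ (k + 2)) (tp / d ^ (k + 2)) (1 / 2) τ c -
        lp Ψ z (Y (k + 2)) (tm / d ^ (k + 2)) (tp / d ^ (k + 2)) (1 / 2) τ c₀‖ < δ :=
    fun c hc τ hτ => hu1 c (ball_subset_ball hre1 hc) c₀ (mem_ball_self he1) τ hτ
  have hv2 : ∀ c ∈ ball c₀ r, ∀ τ ∈ Icc (0 : ℝ) 1,
      ‖lp Ψ z (Y (k + 3)) (tm / d ^ (k + 3)) (tp / d ^ (k + 3)) (1 / 4) τ c -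
        lp Ψ z (Y (k + 3)) (tm / d ^ (k + 3)) (tp / d ^ (k + 3)) (1 / 4) τ c₀‖ < δ :=
    fun c hc τ hτ => hu2 c (ball_subset_ball hre2 hc) c₀ (mem_ball_self he2) τ hτ
  obtain ⟨γ, hγ⟩ : ∃ γ : ℝ → ℂ → ℂ,
      γ = lp Ψ z (Y (k + 2)) (tm / d ^ (k + 2)) (tp / d ^ (k + 2)) (1 / 2) := ⟨_, rfl⟩
  rw [← hγ] at hv1 n1c n1p n1w hb ha
  refine ⟨r, δ, A, z, γ, cthickening (2 * δ) (Kset γ c₀),
    Wset (lp Ψ z (Y (k + 1)) (tm / d ^ (k + 1)) (tp / d ^ (k + 1)) 1), ?_⟩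
  refine ⟨hr, hδ, m1.ray, L.clos, L.memm _ (by omega), L.memp _ (by omega),
    fun c hc => hgr c (hsub hc), ?_, ?_, ?_, ?_, ?_, ?_, ?_, ?_, ?_, ?_, ?_, ?_, ?_, ?_, ?_, ?_, ?_,
    ?_⟩
  · rw [hγ]
    exact m1.cont hΨ
  · intro τ hτ
    rw [hγ]
    exact m1.diff hΨ hτ
  · intro c
    rw [hγ, LD.zero, LD.one]
  · intro c hc
    rw [hγ, LD.zero]
    exact m1.gy hd hCG hc
  · intro c hc τ hτ
    rw [hγ]
    exact m1.left hτ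
  · intro c hc τ hτ
    rw [hγ]
    exact m1.mid hc hτ
  · intro c hc τ hτ
    rw [hγ]
    exact m1.right hc hτ
  · intro ε hε
    rw [hγ]
    exact m1.unif hΨ hr hε
  · intro c hc
    exact m0.Wopen hd hΨ hCG hT hc
  · intro c hc v hv
    exact m0.Wg hd hΨ hCG hS hc hv
  · intro c hc σ t hσ hv
    exact m0.Wout hd hΨ hCG hS hc hσ hv
  · intro c hc σ t hσ hσ1 ht
    exact (m0.enc hd hΨ hCG hS hc).1 σ t hσ hσ1 ht
  · exact n1c.cthickening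
  · exact precon_cthickening n1c n1p (by linarith)
  · intro c hc v hv
    rw [mem_thickening_iff] at hv
    obtain ⟨v', hv', hvv⟩ := hv
    rw [n1c.cthickening_eq_biUnion_closedBall (by linarith)] at hv'
    simp only [mem_iUnion, exists_prop] at hv'
    obtain ⟨x, hx, hv''⟩ := hv'
    rw [mem_closedBall] at hv''
    have hdx : dist v x ≤ 3 * δ := by
      have := dist_triangle v v' x
      linarith
    have hsep : ∀ τ ∈ Icc (0 : ℝ) 1, 8 * δ ≤ dist x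
        (lp Ψ z (Y (k + 1)) (tm / d ^ (k + 1)) (tp / d ^ (k + 1)) 1 τ c₀) := fun τ hτ =>
      hδ1.trans (ha x hx _ ⟨τ, hτ, rfl⟩)
    have hS0 := m0.sect hd hΨ hCG hc0
    have hSc := m0.sect hd hΨ hCG hc
    have hE0 : Enc (fun τ => lp Ψ z (Y (k + 1)) (tm / d ^ (k + 1)) (tp / d ^ (k + 1)) 1 τ c₀) v := by
      refine hT.1 _ (closedBall x (3 * δ)) hS0.cont hS0.closed
        (convex_closedBall x (3 * δ)).isPreconnected ?_ x (mem_closedBall_self (by linarith)) v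
        (mem_closedBall.2 hdx) (n1w x hx).2
      rw [disjoint_left]
      rintro u hu ⟨τ, hτ, hτu⟩
      have h5 := hsep τ hτ
      rw [mem_closedBall, dist_comm] at hu
      have hτu' : lp Ψ z (Y (k + 1)) (tm / d ^ (k + 1)) (tp / d ^ (k + 1)) 1 τ c₀ = u := hτu
      rw [hτu'] at h5
      linarith
    have hdist : ∀ τ ∈ Icc (0 : ℝ) 1, 5 * δ ≤
        ‖lp Ψ z (Y (k + 1)) (tm / d ^ (k + 1)) (tp / d ^ (k + 1)) 1 τ c₀ - v‖ := by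
      intro τ hτ
      have h5 := hsep τ hτ
      have h6 := dist_triangle x v
        (lp Ψ z (Y (k + 1)) (tm / d ^ (k + 1)) (tp / d ^ (k + 1)) 1 τ c₀)
      rw [← dist_eq_norm, dist_comm]
      rw [dist_comm x v] at h6
      linarith
    refine ⟨?_, ?_⟩
    · rintro ⟨τ, hτ, hτv⟩
      have h5 := hdist τ hτ
      have h6 := hv0 c hc τ hτ
      have hτv' : lp Ψ z (Y (k + 1)) (tm / d ^ (k + 1)) (tp / d ^ (k + 1)) 1 τ c = v := hτv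
      rw [hτv', norm_sub_rev] at h6
      linarith
    · refine (hT.2.2 _ _ v hS0.cont hSc.cont hS0.closed hSc.closed ?_).1 hE0
      intro τ hτ
      have h5 := hdist τ hτ
      have h6 := hv0 c hc τ hτ
      rw [norm_sub_rev] at h6
      change ‖lp Ψ z (Y (k + 1)) (tm / d ^ (k + 1)) (tp / d ^ (k + 1)) 1 τ c₀ -
        lp Ψ z (Y (k + 1)) (tm / d ^ (k + 1)) (tp / d ^ (k + 1)) 1 τ c‖ <
        ‖lp Ψ z (Y (k + 1)) (tm / d ^ (k + 1)) (tp / d ^ (k + 1)) 1 τ c₀ - v‖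
      linarith
  · intro c hc τ hτ v hv
    rw [mem_ball] at hv
    refine mem_cthickening_of_dist_le v (γ τ c₀) (2 * δ) _ (Or.inl ⟨τ, hτ, rfl⟩) ?_
    have h5 := hv1 c hc τ hτ
    rw [← dist_eq_norm] at h5
    have := dist_triangle v (γ τ c) (γ τ c₀)
    linarith
  · intro c hc σ t hσ hσ1 ht v hv
    have h5 := m1.near hd hΨ hCG hS hT hr (δ := δ) (by rw [← hγ]; exact hv1) hc hσ hσ1 ht
    rw [← hγ] at h5
    obtain ⟨x, hx, hxd⟩ := h5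
    rw [mem_ball] at hv
    refine mem_cthickening_of_dist_le v x (2 * δ) _ hx ?_
    have := dist_triangle v (Ψ c (ex σ t)) x
    linarith
  · intro c hc c' hc' σ t hσ hσ1 ht τ hτ
    obtain ⟨x, hx, hxd⟩ := m2.near hd hΨ hCG hS hT hr hv2 hc hσ hσ1 ht
    have h5 := hb x hx (γ τ c₀) ⟨τ, hτ, rfl⟩
    have h6 := hv1 c' hc' τ hτ
    rw [← dist_eq_norm] at h6
    rw [← dist_eq_norm]
    have h7 := dist_triangle x (Ψ c (ex σ t)) (γ τ c₀)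
    have h8 := dist_triangle (Ψ c (ex σ t)) (γ τ c') (γ τ c₀)
    rw [dist_comm x (Ψ c (ex σ t))] at h7
    rw [dist_comm (Ψ c (ex σ t)) (γ τ c')] at h8
    linarith

end Pool.Agent.Y298.LC
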